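import Pool.Agent.Y716.D.Defs

/-!
# Counting forms with prescribed values at two points, abstract kernel property
-/

namespace Pool.Agent.Y716.D

open Pool.Agent.Y716.Q Pool.Agent.Y716.C

variable {ι : Type*} [Fintype ι] {s : ℕ}

open scoped Classical in
/-- Two-point upper bound. -/
theorem cnt2_le_of {B a A c' b : ℝ} (e : ℕ) {x y : ι → ℤ} (hbx : Bal B a x) (hx : Sz B x)
    (ha : 1 ≤ a) (haB : a ≤ B)
    {g : ℤ} (hg0 : g ≠ 0) {μ : ℝ} (hμ0 : 0 < μ) (hc'0 : 0 < c')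
    (hker : KerP e B μ c' b x y g)
    (haA : 2 * c1pt (Fintype.card ι) (e + 1) * a ≤ A)
    (haA2 : 2 * c' * b ≤ A) (u v : ℤ) :
    (((formsZ ι (e + 2) A).filter
      (fun f => MvPolynomial.eval x f = u ∧ MvPolynomial.eval y f = v)).card : ℝ) *
      ((A * B ^ (e + 2)) * (A * B ^ e * μ)) ≤
      4 * c1pt (Fintype.card ι) (e + 1) * c' * |(g : ℝ)| *
        (formsZ ι (e + 2) (3 * A)).card := by
  obtain ⟨r₀, hr₀⟩ := hx.2
  have hk0 : 0 < Fintype.card ι := Fintype.card_pos_iff.mpr ⟨r₀⟩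
  have hB : 1 ≤ B := ha.trans haB
  obtain ⟨c, hc⟩ : ∃ c, c1pt (Fintype.card ι) (e + 1) = c := ⟨_, rfl⟩
  have hc0 : 0 < c := by rw [← hc]; unfold c1pt; positivity
  rw [hc] at haA
  rw [hc]
  have hA : 0 ≤ A := by nlinarith
  have hg1' : 0 < |(g : ℝ)| := by positivity
  obtain ⟨N₁, hN₁⟩ : ∃ N₁, N₁ = A * B ^ (e + 2) / (2 * c) := ⟨_, rfl⟩
  obtain ⟨N₂, hN₂⟩ : ∃ N₂, N₂ = A * B ^ e * μ / (2 * c' * |(g : ℝ)|) := ⟨_, rfl⟩
  have hN₁0 : 0 ≤ N₁ := by rw [hN₁]; positivity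
  have hN₂0 : 0 ≤ N₂ := by rw [hN₂]; positivity
  have hBp : 0 < B ^ (e + 2) := by positivity
  have hBe : 0 < B ^ e := by positivity
  have hone : ∀ s : ℤ, s ∈ ivl (-N₁) N₁ → ∃ h : MvPolynomial ι ℤ, IsF (e + 2) A h ∧
      MvPolynomial.eval x h = s := by
    intro s hs
    rw [mem_ivl, ← abs_le] at hs
    have hq : 0 ≤ |(s : ℝ)| / B ^ (e + 2) := by positivity
    obtain ⟨h, h1, h2⟩ := hbx.onepoint hx hB (e + 1) (|(s : ℝ)| / B ^ (e + 2) + a) (by linarith)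
      (by linarith) s (by
        rw [add_mul, div_mul_cancel₀ _ hBp.ne']
        have : 0 ≤ a * B ^ (e + 1 + 1) := by positivity
        linarith)
    refine ⟨h, h1.mono ?_, h2⟩
    rw [hc]
    have h3 : |(s : ℝ)| / B ^ (e + 2) ≤ A / (2 * c) := by
      rw [div_le_iff₀ hBp]
      refine hs.trans (le_of_eq ?_)
      rw [hN₁]; ring
    have h4 : c * (|(s : ℝ)| / B ^ (e + 2)) ≤ A / 2 := by
      have := mul_le_mul_of_nonneg_left h3 hc0.le
      refine this.trans (le_of_eq ?_)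
      field_simp
    linarith
  choose! G hG1 hG2 using hone
  have htwo : ∀ w : ℤ, w ∈ ivl (-N₂) N₂ → ∃ h : MvPolynomial ι ℤ, IsF (e + 2) A h ∧
      MvPolynomial.eval x h = 0 ∧ MvPolynomial.eval y h = g * w := by
    intro w hw
    rw [mem_ivl, ← abs_le] at hw
    obtain ⟨h, h1, h2, h3⟩ := hker (g * w) ⟨w, rfl⟩
    refine ⟨h, h1.mono ?_, h2, h3⟩
    push_cast
    rw [abs_mul]
    have h4 : |(g : ℝ)| * |(w : ℝ)| / (μ * B ^ e) ≤ A / (2 * c') := by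
      rw [div_le_iff₀ (by positivity)]
      have h5 := mul_le_mul_of_nonneg_left hw hg1'.le
      refine h5.trans (le_of_eq ?_)
      rw [hN₂]
      field_simp
    have h5 : c' * (|(g : ℝ)| * |(w : ℝ)| / (μ * B ^ e)) ≤ A / 2 := by
      have := mul_le_mul_of_nonneg_left h4 hc'0.le
      refine this.trans (le_of_eq ?_)
      field_simp
    linarith
  choose! H hH1 hH2 hH3 using htwo
  have key := count_abs ((formsZ ι (e + 2) A).filter
      (fun f => MvPolynomial.eval x f = u ∧ MvPolynomial.eval y f = v))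
    (formsZ ι (e + 2) (3 * A)) x y (ivl (-N₁) N₁) (fun _ => ivl (-N₂) N₂) (K := 1) (L := g)
    one_ne_zero hg0 G H (fun s hs => by rw [hG2 s hs, one_mul])
    (fun s _ w hw => ⟨hH2 w hw, hH3 w hw⟩) u v
    (fun f hf => (Finset.mem_filter.mp hf).2)
    (fun f hf s hs w hw => by
      rw [mem_formsZ]
      have := ((mem_formsZ.mp (Finset.mem_filter.mp hf).1).add (hG1 s hs)).add (hH1 w hw)
      exact this.mono (by linarith))
  simp only [Finset.sum_const, smul_eq_mul] at key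
  have key' := (Nat.cast_le (α := ℝ)).mpr key
  push_cast at key'
  obtain ⟨S₀, hS₀⟩ : ∃ S₀ : ℝ, (((formsZ ι (e + 2) A).filter
      (fun f => MvPolynomial.eval x f = u ∧ MvPolynomial.eval y f = v)).card : ℝ) = S₀ := ⟨_, rfl⟩
  rw [hS₀] at key' ⊢
  have hS₀0 : 0 ≤ S₀ := by rw [← hS₀]; exact Nat.cast_nonneg _
  have h5 : N₁ * N₂ ≤ ((ivl (-N₁) N₁).card : ℝ) * ((ivl (-N₂) N₂).card : ℝ) :=
    mul_le_mul (card_ivl_sym_ge hN₁0) (card_ivl_sym_ge hN₂0) hN₂0 (Nat.cast_nonneg _)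
  have h6 := (mul_le_mul_of_nonneg_left h5 hS₀0).trans key'
  have h7 : A * B ^ (e + 2) * (A * B ^ e * μ) = 4 * c * c' * |(g : ℝ)| * (N₁ * N₂) := by
    rw [hN₁, hN₂]; field_simp; ring
  rw [h7]
  have h8 : 0 ≤ 4 * c * c' * |(g : ℝ)| := by positivity
  nlinarith [mul_le_mul_of_nonneg_left h6 h8]

open scoped Classical in
/-- Conditional two-point upper bound. -/
theorem cnt2_cond_of {B a A A₂ Δ κ c' b : ℝ} (e : ℕ) {x y : ι → ℤ} (hbx : Bal B a x)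
    (hx : Sz B x) (hy : Sz B y) (ha : 1 ≤ a) (haB : a ≤ B)
    {g : ℤ} (hκ : 0 < κ) (hc'0 : 0 < c')
    (hker : KerP e B (κ * B ^ 2) c' b x y g)
    (u v : ℤ) {K D : ℕ} (hK : 0 < K) (hD : 0 < D) (hgKD : g ∣ (K * D : ℤ)) (hΔ : 0 ≤ Δ)
    (hΔK : K * D ≤ Δ)
    (hA : A + (c1pt (Fintype.card ι) (e + 1) + c' *
      (1 + (mons ι (e + 2)).card * c1pt (Fintype.card ι) (e + 1)) / κ) *
      (Δ / B ^ (e + 2) + K * a) + c' * b ≤ A₂) :
    (((formsZ ι (e + 2) A).filter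
      (fun f => MvPolynomial.eval x f = u ∧ MvPolynomial.eval y f = v)).card : ℝ) *
      ((2 * Δ / K - 1) * (2 * Δ / (K * D) - 1))
      ≤ ((formsZ ι (e + 2) A₂).filter
      (fun f => ((K : ℤ) ∣ MvPolynomial.eval x f - u ∧
        |((MvPolynomial.eval x f - u : ℤ) : ℝ)| ≤ Δ) ∧
        ((K : ℤ) ∣ MvPolynomial.eval y f - v ∧
        |((MvPolynomial.eval y f - v : ℤ) : ℝ)| ≤ Δ))).card := by
  obtain ⟨r₀, hr₀⟩ := hx.2
  have hk0 : 0 < Fintype.card ι := Fintype.card_pos_iff.mpr ⟨r₀⟩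
  have hB : 1 ≤ B := ha.trans haB
  obtain ⟨c, hc⟩ : ∃ c, c1pt (Fintype.card ι) (e + 1) = c := ⟨_, rfl⟩
  have hc0 : 0 < c := by rw [← hc]; unfold c1pt; positivity
  obtain ⟨M, hM⟩ : ∃ M : ℝ, ((mons ι (e + 2)).card : ℝ) = M := ⟨_, rfl⟩
  have hM0 : 0 ≤ M := by rw [← hM]; positivity
  rw [hc, hM] at hA
  have hBp : 0 < B ^ (e + 2) := by positivity
  have hBe : 0 < B ^ e := by positivity
  have hKr : (1:ℝ) ≤ K := by exact_mod_cast hK
  have hKr0 : (0:ℝ) < K := by linarith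
  have hDr : (1:ℝ) ≤ D := by exact_mod_cast hD
  have hDr0 : (0:ℝ) < D := by linarith
  -- first shifts
  have hone : ∀ s : ℤ, s ∈ ivl (-(Δ / K)) (Δ / K) → ∃ h : MvPolynomial ι ℤ,
      IsF (e + 2) (c * (Δ / K / B ^ (e + 2) + a)) h ∧ MvPolynomial.eval x h = s := by
    intro s hs
    rw [mem_ivl, ← abs_le] at hs
    have hq : 0 ≤ Δ / K / B ^ (e + 2) := by positivity
    have := hbx.onepoint hx hB (e + 1) (Δ / K / B ^ (e + 2) + a) (by linarith)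
      (by linarith) s (by
        rw [add_mul, div_mul_cancel₀ _ hBp.ne']
        have : 0 ≤ a * B ^ (e + 1 + 1) := by positivity
        linarith)
    rwa [hc] at this
  choose! G hG1 hG2 using hone
  have hKG : ∀ s ∈ ivl (-(Δ / K)) (Δ / K),
      IsF (e + 2) (c * (Δ / B ^ (e + 2) + K * a)) (MvPolynomial.C (K : ℤ) * G s) := by
    intro s hs
    refine ((hG1 s hs).C_mul (K : ℤ)).mono (le_of_eq ?_)
    have : |((K : ℤ) : ℝ)| = K := by
      rw [Int.cast_natCast, abs_of_pos hKr0]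
    rw [this]
    field_simp
  have hKGy : ∀ s ∈ ivl (-(Δ / K)) (Δ / K),
      |((MvPolynomial.eval y (MvPolynomial.C (K : ℤ) * G s) : ℤ) : ℝ)| ≤
        M * c * (Δ / B ^ (e + 2) + K * a) * B ^ (e + 2) := by
    intro s hs
    have := (hKG s hs).eval_le hy.1
    rw [hM] at this
    refine this.trans (le_of_eq ?_)
    ring
  -- second shifts
  set W : ℤ → Finset ℤ := fun s => ivl ((-Δ - (MvPolynomial.eval y (G s) : ℤ) * K) / (K * D))
    ((Δ - (MvPolynomial.eval y (G s) : ℤ) * K) / (K * D)) with hW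
  have hWmem : ∀ s w, w ∈ W s → |(((K : ℤ) * MvPolynomial.eval y (G s) + K * D * w : ℤ) : ℝ)| ≤ Δ := by
    intro s w hw
    rw [hW] at hw
    simp only at hw
    rw [mem_ivl, div_le_iff₀ (by positivity), le_div_iff₀ (by positivity)] at hw
    rw [abs_le]
    push_cast
    constructor
    · linarith [hw.1]
    · linarith [hw.2]
  have hvb : ∀ s ∈ ivl (-(Δ / K)) (Δ / K), ∀ w ∈ W s, |(((K * D : ℤ) * w : ℤ) : ℝ)| ≤
      (1 + M * c) * (Δ / B ^ (e + 2) + K * a) * B ^ (e + 2) := by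
    intro s hs w hw
    have h1 := hWmem s w hw
    have h2 := hKGy s hs
    rw [map_mul, MvPolynomial.eval_C] at h2
    have h3 : (((K * D : ℤ) * w : ℤ) : ℝ) =
        (((K : ℤ) * MvPolynomial.eval y (G s) + K * D * w : ℤ) : ℝ) -
        (((K : ℤ) * MvPolynomial.eval y (G s) : ℤ) : ℝ) := by
      push_cast; ring
    rw [h3]
    refine (abs_sub _ _).trans ((add_le_add h1 h2).trans ?_)
    have h4 : Δ ≤ (Δ / B ^ (e + 2) + K * a) * B ^ (e + 2) := by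
      rw [add_mul, div_mul_cancel₀ _ hBp.ne']
      have : 0 ≤ K * a * B ^ (e + 2) := by positivity
      linarith
    nlinarith
  have htwo : ∀ w : ℤ, |(((K * D : ℤ) * w : ℤ) : ℝ)| ≤
      (1 + M * c) * (Δ / B ^ (e + 2) + K * a) * B ^ (e + 2) → ∃ h : MvPolynomial ι ℤ,
      IsF (e + 2) (c' * ((1 + M * c) * (Δ / B ^ (e + 2) + K * a) / κ + b)) h ∧
      MvPolynomial.eval x h = 0 ∧ MvPolynomial.eval y h = (K * D : ℤ) * w := by
    intro w hw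
    obtain ⟨h, h1, h2, h3⟩ := hker ((K * D : ℤ) * w) (Dvd.dvd.mul_right hgKD w)
    refine ⟨h, h1.mono ?_, h2, h3⟩
    apply mul_le_mul_of_nonneg_left _ hc'0.le
    apply add_le_add_left
    rw [div_le_div_iff₀ (by positivity) hκ]
    have h5 := mul_le_mul_of_nonneg_right hw hκ.le
    refine h5.trans (le_of_eq ?_)
    rw [pow_add]; ring
  choose! H hH1 hH2 hH3 using htwo
  have key := count_abs ((formsZ ι (e + 2) A).filter
      (fun f => MvPolynomial.eval x f = u ∧ MvPolynomial.eval y f = v))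
    ((formsZ ι (e + 2) A₂).filter
      (fun f => ((K : ℤ) ∣ MvPolynomial.eval x f - u ∧
        |((MvPolynomial.eval x f - u : ℤ) : ℝ)| ≤ Δ) ∧
        ((K : ℤ) ∣ MvPolynomial.eval y f - v ∧
        |((MvPolynomial.eval y f - v : ℤ) : ℝ)| ≤ Δ)))
    x y (ivl (-(Δ / K)) (Δ / K)) W (K := (K : ℤ)) (L := (K * D : ℤ))
    (by exact_mod_cast hK.ne') (by positivity) (fun s => MvPolynomial.C (K : ℤ) * G s) H
    (fun s hs => by rw [map_mul, MvPolynomial.eval_C, hG2 s hs])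
    (fun s hs w hw => ⟨hH2 w (hvb s hs w hw), hH3 w (hvb s hs w hw)⟩) u v
    (fun f hf => (Finset.mem_filter.mp hf).2)
    (fun f hf s hs w hw => by
      obtain ⟨hf1, hf2, hf3⟩ := Finset.mem_filter.mp hf
      have hwb := hvb s hs w hw
      rw [Finset.mem_filter]
      refine ⟨?_, ⟨?_, ?_⟩, ?_, ?_⟩
      · rw [mem_formsZ]
        have := ((mem_formsZ.mp hf1).add (hKG s hs)).add (hH1 w hwb)
        refine this.mono (le_trans (le_of_eq ?_) hA)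
        ring
      · rw [map_add, map_add, hf2, hH2 w hwb, map_mul, MvPolynomial.eval_C]
        exact ⟨MvPolynomial.eval x (G s), by ring⟩
      · rw [map_add, map_add, hf2, hH2 w hwb, map_mul, MvPolynomial.eval_C, hG2 s hs]
        have h1 := hs
        rw [mem_ivl, ← abs_le] at h1
        have h2 : ((u + (K : ℤ) * s + 0 - u : ℤ) : ℝ) = K * (s : ℝ) := by push_cast; ring
        rw [h2, abs_mul, abs_of_pos hKr0]
        have h3 := mul_le_mul_of_nonneg_left h1 hKr0.le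
        rwa [mul_div_cancel₀ _ hKr0.ne'] at h3
      · rw [map_add, map_add, hf3, hH3 w hwb, map_mul, MvPolynomial.eval_C]
        exact ⟨MvPolynomial.eval y (G s) + D * w, by ring⟩
      · rw [map_add, map_add, hf3, hH3 w hwb, map_mul, MvPolynomial.eval_C]
        have h2 : v + (K : ℤ) * MvPolynomial.eval y (G s) + (K * D : ℤ) * w - v =
          (K : ℤ) * MvPolynomial.eval y (G s) + K * D * w := by ring
        rw [h2]
        exact hWmem s w hw)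
  have key' := (Nat.cast_le (α := ℝ)).mpr key
  rw [Nat.cast_mul, Nat.cast_sum] at key'
  refine le_trans ?_ key'
  apply mul_le_mul_of_nonneg_left _ (Nat.cast_nonneg _)
  have h1 : ∀ s ∈ ivl (-(Δ / K)) (Δ / K), 2 * Δ / (K * D) - 1 ≤ ((W s).card : ℝ) := by
    intro s _
    have := card_ivl_ge ((-Δ - (MvPolynomial.eval y (G s) : ℤ) * K) / (K * D))
      ((Δ - (MvPolynomial.eval y (G s) : ℤ) * K) / (K * D))
    refine le_trans (le_of_eq ?_) this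
    field_simp
    ring
  refine le_trans ?_ (Finset.sum_le_sum h1)
  rw [Finset.sum_const, nsmul_eq_mul]
  apply mul_le_mul_of_nonneg_right
  · have := card_ivl_ge (-(Δ / K)) (Δ / K)
    refine le_trans (le_of_eq ?_) this
    ring
  · rw [sub_nonneg, le_div_iff₀ (by positivity)]
    linarith


open scoped Classical in
theorem good_sum_D2 (e : Fin s → ℕ) {w : ℕ} {fc : Fin s → MvPolynomial ι ℤ} {S J : ℕ}
    {xc : ι → ℤ}
    {P : ℝ} {ξ : ι → ℝ} {a : Fin s → ι} {ρ ρ' B a₀ A A₂ κ : ℝ} {Δ : Fin s → ℝ} (ha : 1 ≤ a₀)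
    (haB : a₀ ≤ B) (hκ : 0 < κ)
    {c' b : ℝ} (hc' : 0 < c')
    (u : Fin s → (ι → ℤ) → ℤ)
    (hu : ∀ x ∈ boxS P ξ a ρ ρ' S J xc fc, ∀ j,
      MvPolynomial.eval x (fc j) = -(((S * J : ℕ) : ℤ) * u j x))
    {K N D : ℕ} (hK : 0 < K) (hD : 0 < D) (hΔ : ∀ j, 0 ≤ Δ j) (hΔK : ∀ j, K * D ≤ Δ j)
    (hA : ∀ j, A + (c1pt (Fintype.card ι) (e j + 1) + c' *
      (1 + (mons ι (e j + 2)).card * c1pt (Fintype.card ι) (e j + 1)) / κ) *
      (Δ j / B ^ (e j + 2) + K * a₀) + c' * b ≤ A₂)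
    {R₁ R₂ : ℝ} (hR₂ : 0 ≤ R₂)
    (hL1 : ∀ g ∈ sysZ ι e A₂,
      ((locSetS P ξ a ρ ρ' S J xc fc (memS fc S J g) K 1 0
        (fun j => (S * J : ℕ) * Δ j)).card : ℝ) ≤ R₁)
    (hL2 : ∀ g ∈ sysZ ι e A₂, ∀ ζ,
      ((locSetS P ξ a ρ ρ' S J xc fc (memS fc S J g) K D ζ
        (fun j => (S * J : ℕ) * Δ j)).card : ℝ) ≤ R₂)
    (Gd : Finset ((ι → ℤ) × (ι → ℤ)))
    (hGd : ∀ p ∈ Gd, p.1 ∈ testSetS B a₀ P ξ a ρ ρ' S J xc fc ∧
      p.2 ∈ testSetS B a₀ P ξ a ρ ρ' S J xc fc ∧ GoodPair w K N B κ p D)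
    (hker : ∀ p ∈ Gd, ∀ g : ℤ, g ≠ 0 → (∀ i j, g ∣ mn p.1 p.2 i j) →
      (∀ D, (∀ i j, D ∣ mn p.1 p.2 i j) → D ∣ g) →
      ∀ j, KerP (e j) B (κ * B ^ 2) c' b p.1 p.2 g) :
    (∑ p ∈ Gd, ∏ j, (c2 (e j) A (u j) p : ℝ)) *
      (∏ j, ((2 * Δ j / K - 1) * (2 * Δ j / (K * D) - 1))) ≤
      (sysZ ι e A₂).card * (R₁ * (D * R₂)) := by
  have hlam : ∀ p ∈ Gd, ∃ c : ℕ, c < D ∧ ∀ i, (D : ℤ) ∣ p.2 i - c * p.1 i := by
    intro p hp
    obtain ⟨h1, h2, g, hg0, hg1, hg2, hg3, hg4, hg5, hg6, hg7, hg8⟩ := hGd p hp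
    exact exists_lambda (mem_testSetS.mp h1).2.2.1 hD (fun i j => hg6.trans (hg1 i j))
  choose! lam hlam1 hlam2 using hlam
  obtain ⟨Δ₁, hΔ₁⟩ : ∃ Δ₁ : Fin s → ℝ, Δ₁ = fun j => ((S * J : ℕ) : ℝ) * Δ j := ⟨_, rfl⟩
  rw [← hΔ₁] at hL1 hL2
  set Loc : (Fin s → MvPolynomial ι ℤ) → Finset (ι → ℤ) := fun g =>
    locSetS P ξ a ρ ρ' S J xc fc (memS fc S J g) K 1 0 Δ₁ with hLoc
  set LocD : (Fin s → MvPolynomial ι ℤ) → (ι → ℤ) → Finset (ι → ℤ) := fun g ζ =>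
    locSetS P ξ a ρ ρ' S J xc fc (memS fc S J g) K D ζ Δ₁ with hLocD
  have hKr : (0:ℝ) < K := by exact_mod_cast hK
  have hDr : (1:ℝ) ≤ D := by exact_mod_cast hD
  have hwin : ∀ j, 0 ≤ (2 * Δ j / K - 1) * (2 * Δ j / (K * D) - 1) := by
    intro j
    have h1 := hΔK j
    have h2 : (K:ℝ) ≤ K * D := le_mul_of_one_le_right hKr.le hDr
    have h3 := hΔ j
    apply mul_nonneg
    · rw [sub_nonneg, le_div_iff₀ hKr]; linarith
    · rw [sub_nonneg, le_div_iff₀ (by positivity)]; linarith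
  have hA1 : ∀ p ∈ Gd, (∏ j, (c2 (e j) A (u j) p : ℝ)) *
      (∏ j, ((2 * Δ j / K - 1) * (2 * Δ j / (K * D) - 1))) ≤
      (((sysZ ι e A₂).filter
        (fun g => p.1 ∈ Loc g ∧ p.2 ∈ LocD g (fun i => (lam p : ℤ) * p.1 i))).card : ℝ) := by
    intro p hp
    obtain ⟨h1, h2, g, hg0, hg1, hg2, hg3, hg4, hg5, hg6, hg7, hg8⟩ := hGd p hp
    obtain ⟨hx1, hx2, hx3, hx4⟩ := mem_testSetS.mp h1
    obtain ⟨hy1, hy2, hy3, hy4⟩ := mem_testSetS.mp h2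
    rw [← Finset.prod_mul_distrib]
    have key : ∀ j, (c2 (e j) A (u j) p : ℝ) *
        ((2 * Δ j / K - 1) * (2 * Δ j / (K * D) - 1)) ≤
        (((formsZ ι (e j + 2) A₂).filter
        (fun f => ((K : ℤ) ∣ MvPolynomial.eval p.1 f - u j p.1 ∧
          |((MvPolynomial.eval p.1 f - u j p.1 : ℤ) : ℝ)| ≤ Δ j) ∧
          ((K : ℤ) ∣ MvPolynomial.eval p.2 f - u j p.2 ∧
          |((MvPolynomial.eval p.2 f - u j p.2 : ℤ) : ℝ)| ≤ Δ j))).card : ℝ) := fun j =>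
      cnt2_cond_of (e j) hx4 hx2 hy2 ha haB hκ hc' (hker p hp g hg0 hg1 hg2 j) (u j p.1) (u j p.2)
        hK hD hg7 (hΔ j) (hΔK j) (hA j)
    refine (Finset.prod_le_prod (fun j _ => mul_nonneg (Nat.cast_nonneg _) (hwin j))
      (fun j _ => key j)).trans ?_
    rw [prod_card_filter
      (fun j f => ((K : ℤ) ∣ MvPolynomial.eval p.1 f - u j p.1 ∧
          |((MvPolynomial.eval p.1 f - u j p.1 : ℤ) : ℝ)| ≤ Δ j) ∧
          ((K : ℤ) ∣ MvPolynomial.eval p.2 f - u j p.2 ∧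
          |((MvPolynomial.eval p.2 f - u j p.2 : ℤ) : ℝ)| ≤ Δ j))]
    apply Nat.cast_le.mpr
    apply Finset.card_le_card
    intro f hf
    rw [Finset.mem_filter] at hf ⊢
    refine ⟨hf.1, ?_, ?_⟩
    · rw [hLoc, hΔ₁]
      exact mem_locSetS_of hx1 (hu _ hx1) (fun j => (hf.2 j).1) (fun i => by simp)
    · rw [hLocD, hΔ₁]
      exact mem_locSetS_of hy1 (hu _ hy1) (fun j => (hf.2 j).2) (hlam2 p hp)
  have hB1 : ∑ p ∈ Gd, (((sysZ ι e A₂).filter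
      (fun g => p.1 ∈ Loc g ∧ p.2 ∈ LocD g (fun i => (lam p : ℤ) * p.1 i))).card : ℝ) =
      ∑ g ∈ sysZ ι e A₂, ((Gd.filter
        (fun p => p.1 ∈ Loc g ∧ p.2 ∈ LocD g (fun i => (lam p : ℤ) * p.1 i))).card : ℝ) := by
    simp only [Finset.card_filter, Nat.cast_sum]
    exact Finset.sum_comm
  have hB2 : ∀ g ∈ sysZ ι e A₂, ((Gd.filter
        (fun p => p.1 ∈ Loc g ∧ p.2 ∈ LocD g (fun i => (lam p : ℤ) * p.1 i))).card : ℝ) ≤
        R₁ * (D * R₂) := by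
    intro g hg
    have hsub : (Gd.filter (fun p => p.1 ∈ Loc g ∧ p.2 ∈ LocD g (fun i => (lam p : ℤ) * p.1 i))) ⊆
        ((Loc g) ×ˢ (Finset.range D)).biUnion
          (fun r => (LocD g (fun i => ((r.2 : ℕ) : ℤ) * r.1 i)).image (fun y => (r.1, y))) := by
      intro p hp
      rw [Finset.mem_filter] at hp
      rw [Finset.mem_biUnion]
      refine ⟨(p.1, lam p), ?_, ?_⟩
      · rw [Finset.mem_product]
        exact ⟨hp.2.1, Finset.mem_range.mpr (hlam1 p hp.1)⟩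
      · rw [Finset.mem_image]
        exact ⟨p.2, hp.2.2, rfl⟩
    have h1 := (Finset.card_le_card hsub).trans Finset.card_biUnion_le
    have h1' := (Nat.cast_le (α := ℝ)).mpr h1
    rw [Nat.cast_sum] at h1'
    refine h1'.trans ?_
    have h2 : ∀ r ∈ (Loc g) ×ˢ (Finset.range D),
        (((LocD g (fun i => ((r.2 : ℕ) : ℤ) * r.1 i)).image (fun y => (r.1, y))).card : ℝ) ≤ R₂ := by
      intro r _
      refine le_trans ?_ (hL2 g hg (fun i => ((r.2 : ℕ) : ℤ) * r.1 i))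
      exact_mod_cast Finset.card_image_le
    refine (Finset.sum_le_sum h2).trans ?_
    rw [Finset.sum_const, nsmul_eq_mul, Finset.card_product, Finset.card_range]
    push_cast
    rw [mul_assoc]
    apply mul_le_mul_of_nonneg_right (hL1 g hg) (by positivity)
  rw [Finset.sum_mul]
  refine (Finset.sum_le_sum hA1).trans ?_
  rw [hB1]
  refine (Finset.sum_le_sum hB2).trans ?_
  rw [Finset.sum_const, nsmul_eq_mul]

open scoped Classical in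
theorem good_sum2 (e : Fin s → ℕ) {w : ℕ} (hw : 1 ≤ w) {fc : Fin s → MvPolynomial ι ℤ}
    {S J : ℕ} {xc : ι → ℤ}
    {P : ℝ} {ξ : ι → ℝ} {a : Fin s → ι} {ρ ρ' B a₀ A A₂ κ : ℝ} {Δ : Fin s → ℝ} (ha : 1 ≤ a₀)
    (haB : a₀ ≤ B) (hκ : 0 < κ)
    {c' b : ℝ} (hc' : 0 < c')
    (u : Fin s → (ι → ℤ) → ℤ)
    (hu : ∀ x ∈ boxS P ξ a ρ ρ' S J xc fc, ∀ j,
      MvPolynomial.eval x (fc j) = -(((S * J : ℕ) : ℤ) * u j x))
    {K N : ℕ} (hK : 0 < K) (hΔ : ∀ j, 0 ≤ Δ j) (hΔK : ∀ j, K * N ≤ Δ j)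
    (hA : ∀ j, A + (c1pt (Fintype.card ι) (e j + 1) + c' *
      (1 + (mons ι (e j + 2)).card * c1pt (Fintype.card ι) (e j + 1)) / κ) *
      (Δ j / B ^ (e j + 2) + K * a₀) + c' * b ≤ A₂)
    {R₁ E : ℝ} {R₂ : ℕ → ℝ} (hR₂ : ∀ D, 0 ≤ R₂ D) (hE : 0 ≤ E)
    (hL1 : ∀ g ∈ sysZ ι e A₂,
      ((locSetS P ξ a ρ ρ' S J xc fc (memS fc S J g) K 1 0
        (fun j => (S * J : ℕ) * Δ j)).card : ℝ) ≤ R₁)
    (hL2 : ∀ D : ℕ, 0 < D → D ≤ N → (∀ q : ℕ, q.Prime → q ≤ w → ¬ q ∣ D) →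
      ∀ g ∈ sysZ ι e A₂, ∀ ζ,
      ((locSetS P ξ a ρ ρ' S J xc fc (memS fc S J g) K D ζ
        (fun j => (S * J : ℕ) * Δ j)).card : ℝ) ≤ R₂ D)
    (hED : ∀ D : ℕ, 0 < D → D ≤ N → (sysZ ι e A₂).card * (R₁ * (D * R₂ D)) ≤
      (sysZ ι e A).card * (E * (1 / (D : ℝ) ^ 2)) *
        (∏ j, ((2 * Δ j / K - 1) * (2 * Δ j / (K * D) - 1))))
    (Gd : Finset ((ι → ℤ) × (ι → ℤ)))
    (hGd : ∀ p ∈ Gd, p.1 ∈ testSetS B a₀ P ξ a ρ ρ' S J xc fc ∧
      p.2 ∈ testSetS B a₀ P ξ a ρ ρ' S J xc fc ∧ ∃ D, GoodPair w K N B κ p D)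
    (hker : ∀ p ∈ Gd, ∀ g : ℤ, g ≠ 0 → (∀ i j, g ∣ mn p.1 p.2 i j) →
      (∀ D, (∀ i j, D ∣ mn p.1 p.2 i j) → D ∣ g) →
      ∀ j, KerP (e j) B (κ * B ^ 2) c' b p.1 p.2 g) :
    ∑ p ∈ Gd, ∏ j, (c2 (e j) A (u j) p : ℝ) ≤ (sysZ ι e A).card * E * (1 + 1 / w) := by
  choose! Df hDf using fun p hp => (hGd p hp).2.2
  set 𝒟 := Gd.image Df with h𝒟
  have hKr : (1:ℝ) ≤ K := by exact_mod_cast hK
  have h𝒟p : ∀ D ∈ 𝒟, 0 < D ∧ D ≤ N ∧ (∀ q : ℕ, q.Prime → q ≤ w → ¬ q ∣ D) := by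
    intro D hD
    obtain ⟨p, hp, rfl⟩ := Finset.mem_image.mp hD
    obtain ⟨g, hg0, hg1, hg2, hg3, hg4, hg5, hg6, hg7, hg8⟩ := hDf p hp
    exact ⟨hg4, hg5, hg8⟩
  rw [← Finset.sum_fiberwise_of_maps_to (fun p hp => Finset.mem_image_of_mem Df hp :
    ∀ p ∈ Gd, Df p ∈ 𝒟)]
  have hterm : ∀ D ∈ 𝒟, ∑ p ∈ Gd.filter (fun p => Df p = D), ∏ j, (c2 (e j) A (u j) p : ℝ) ≤
      (sysZ ι e A).card * E * (1 / (D : ℝ) ^ 2) := by
    intro D hD
    obtain ⟨hD1, hD2, hD3⟩ := h𝒟p D hD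
    have hD1r : (1:ℝ) ≤ D := by exact_mod_cast hD1
    have hKD : ∀ j, (K:ℝ) * D ≤ Δ j := by
      intro j
      have h0 : (D:ℝ) ≤ N := by exact_mod_cast hD2
      have h1 := mul_le_mul_of_nonneg_left h0 (by linarith : (0:ℝ) ≤ K)
      linarith [hΔK j]
    have key := good_sum_D2 e ha haB hκ hc' u hu hK hD1 hΔ hKD hA (hR₂ D) hL1
      (hL2 D hD1 hD2 hD3) (Gd.filter (fun p => Df p = D)) (by
        intro p hp
        rw [Finset.mem_filter] at hp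
        have h1 := hGd p hp.1
        refine ⟨h1.1, h1.2.1, ?_⟩
        rw [← hp.2]
        exact hDf p hp.1) (fun p hp => hker p (Finset.mem_filter.mp hp).1)
    have key2 := key.trans (hED D hD1 hD2)
    have hpos : 0 < ∏ j, ((2 * Δ j / K - 1) * (2 * Δ j / (K * D) - 1)) := by
      apply Finset.prod_pos
      intro j _
      have h2 := hKD j
      have h3 : (0:ℝ) < K * D := by positivity
      have h4 : (K:ℝ) ≤ K * D := le_mul_of_one_le_right (by linarith) hD1r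
      apply mul_pos
      · rw [sub_pos, lt_div_iff₀ (by linarith)]
        linarith
      · rw [sub_pos, lt_div_iff₀ (by positivity)]
        linarith
    have := le_of_mul_le_mul_right key2 hpos
    refine this.trans (le_of_eq ?_)
    ring
  refine (Finset.sum_le_sum hterm).trans ?_
  rw [← Finset.mul_sum]
  apply mul_le_mul_of_nonneg_left _ (by positivity)
  exact sum_D_bound hw 𝒟 (fun D hD => ⟨(h𝒟p D hD).2.1, one_or_gt (h𝒟p D hD).1 (h𝒟p D hD).2.2⟩)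


end Pool.Agent.Y716.D
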