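import Pool.Agent.Y716.D.ClassThm
import Pool.Agent.Y716.C.Smooth
import Pool.Agent.Y898.D.Kernel
import Pool.Agent.Y168.D.Basis
import Pool.Agent.Y168.D.Classes
import Pool.Agent.Y168.D.Rel
import Pool.Agent.Y168.D.Triple
import Pool.Agent.Y170.D.BadPairs
import Pool.Agent.Y77.D.Moment

/-!
# Complete intersections of dimension at least two: the main theorems

`s` forms of degrees `e j + 2` in at least `s + 3` variables (so that the complete intersection has
dimension at least two) and at least `∑ (e j + 2) + 1` variables. The case of at least `2 s + 2`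
variables is in `Pool.Agent.Y716.C.Main`; the remaining case is that of `s ≥ 2` quadratic forms in
`2 s + 1` variables.
-/

namespace Pool.Agent.Y716.D

open Pool.Agent.Y716.Q Pool.Agent.Y716.C Filter Topology Pool.Agent.Y697.C13

theorem dims {s n : ℕ} {e : Fin s → ℕ} (hs : 1 ≤ s) (hn : 3 ≤ n) (h : ∑ j, (e j + 2) ≤ n) :
    s + 3 ≤ Fintype.card (Fin (n + 1)) ∧ ∑ j, (e j + 2) + 1 ≤ Fintype.card (Fin (n + 1)) := by
  rw [Fintype.card_fin]
  have h1 : ∑ j, (e j + 2) = ∑ j, e j + 2 * s := by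
    rw [Finset.sum_add_distrib, Finset.sum_const, Finset.card_univ, Fintype.card_fin,
      smul_eq_mul, mul_comm]
  omega

variable (ι : Type*) [Fintype ι] {s : ℕ} (hs : 1 ≤ s) (h3s : s + 3 ≤ Fintype.card ι)
  (e : Fin s → ℕ) (hdeg : ∑ j, (e j + 2) + 1 ≤ Fintype.card ι)

include hs h3s hdeg

theorem class_all : ClassStmtS ι e := by
  by_cases h2s : 2 * s + 2 ≤ Fintype.card ι
  · exact class_systems ι hs h2s e hdeg
  · have h1 : ∑ j, (e j + 2) = ∑ j, e j + 2 * s := by
      rw [Finset.sum_add_distrib, Finset.sum_const, Finset.card_univ, Fintype.card_fin,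
        smul_eq_mul, mul_comm]
    have hk : Fintype.card ι = 2 * s + 1 := by omega
    have hs2 : 2 ≤ s := by omega
    have h0 : ∑ j, e j = 0 := by omega
    have he : ∀ j, e j = 0 := fun j => Finset.sum_eq_zero_iff.mp h0 j (Finset.mem_univ j)
    have hLU := Y815.C.loc_upper ι s (by omega)
    have htl := Y419.C.tail_pow ι s hs (by omega)
    have hbad : BadPairs ι := Y170.D.bad_pairs ι (by omega) (Y168.D.short_basis ι)
      (Y168.D.short_classes ι) (Y168.D.relation ι) (Y168.D.triple_count ι)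
    exact class_borderline_of ι hs2 hk e he hLU
      (Y665.C.test_lower ι s (by omega) (by omega) hLU)
      (Y77.D.second_moment2 ι (by omega) htl hbad (Y898.D.kernel_good ι) e he)
      (Y43.C.real_of_slab ι e (Y592.C.slab_lemma ι s))

theorem exc_all : ExcStmtS ι e :=
  Y363.C7.exc_sys ι hs e (class_all ι hs h3s e hdeg) (Y232.CS.bad_int ι e)
    (Y407.C4.bad_real ι e) (Y813.C5.stable ι s) (Z864.C.minor ι s)

theorem pos_all : PosStmtS ι e :=
  Y487.C8.pos_sys ι hs (by omega) e (class_all ι hs h3s e hdeg)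

/-- The Hasse principle holds for almost all systems. -/
theorem hp_all : HPStmtS ι e :=
  Y487.C8.hp_sys ι hs e (exc_all ι hs h3s e hdeg) (pos_all ι hs h3s e hdeg)

/-- Weak approximation holds for almost all systems. -/
theorem wa_all : WAStmtS ι e :=
  Y438.C.wa_sys ι hs e (exc_all ι hs h3s e hdeg) (pos_all ι hs h3s e hdeg)

/-- The Hasse principle holds for almost all smooth complete intersections. -/
theorem hp_smooth_all : Tendsto (fun H : ℕ =>
      (({f : Fin s → MvPolynomial ι ℤ | (∀ j, (f j).IsHomogeneous (e j + 2) ∧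
          ∀ m, |(f j).coeff m| ≤ (H : ℤ)) ∧ SmoothS f ∧
          ∃ x : ι → ℚ, x ≠ 0 ∧ ∀ j, MvPolynomial.aeval x (f j) = 0} : Set _).ncard : ℝ) /
      (({f : Fin s → MvPolynomial ι ℤ | (∀ j, (f j).IsHomogeneous (e j + 2) ∧
          ∀ m, |(f j).coeff m| ≤ (H : ℤ)) ∧ SmoothS f ∧ ElsS f} : Set _).ncard : ℝ))
      atTop (𝓝 1) :=
  smooth_ratio ι e (pos_all ι hs h3s e hdeg)
    (fun _ f => ∃ x : ι → ℚ, x ≠ 0 ∧ ∀ j, MvPolynomial.aeval x (f j) = 0)
    (fun _ f hf h => Y487.C8.sol_elsS ((Y487.C8.solQ_iffS hf).mp h)) (hp_all ι hs h3s e hdeg)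

/-- Weak approximation holds for almost all smooth complete intersections. -/
theorem wa_smooth_all : ∃ m : ℕ → ℕ, Tendsto m atTop atTop ∧
    Tendsto (fun H : ℕ =>
      (({f : Fin s → MvPolynomial ι ℤ | (∀ j, (f j).IsHomogeneous (e j + 2) ∧
          ∀ m, |(f j).coeff m| ≤ (H : ℤ)) ∧ SmoothS f ∧ ElsS f ∧
          WeakApproxS (m H) f} : Set _).ncard : ℝ) /
      (({f : Fin s → MvPolynomial ι ℤ | (∀ j, (f j).IsHomogeneous (e j + 2) ∧
          ∀ m, |(f j).coeff m| ≤ (H : ℤ)) ∧ SmoothS f ∧ ElsS f} : Set _).ncard : ℝ))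
      atTop (𝓝 1) := by
  obtain ⟨m, hm, h⟩ := wa_all ι hs h3s e hdeg
  exact ⟨m, hm, smooth_ratio ι e (pos_all ι hs h3s e hdeg)
    (fun H f => ElsS f ∧ WeakApproxS (m H) f) (fun H f _ h => h.1) h⟩

end Pool.Agent.Y716.D
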