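import Pool.Agent.Y716.D.Core
import Pool.Agent.Y716.C.ClassThm

/-!
# The class theorem for borderline systems of quadratic forms
-/

namespace Pool.Agent.Y716.D

open Pool.Agent.Y716.Q Pool.Agent.Y716.C Filter

theorem h3_num {Ct ε c₀ : ℝ} {M s r n₁ : ℕ} (hs : 1 ≤ s) (hCt : 0 < Ct) (hε : 0 < ε)
    (hc₀ : 0 < c₀) (hr : 1 ≤ r)
    (hn₁ : n₁ = 8 * M + 16 * M * s + 62 * s + 10 * s * (2 * s + 1) + 10) :
    ∃ Yc : ℝ, ∀ Y : ℝ, Yc ≤ Y → ∀ a₀ : ℝ, 0 ≤ a₀ → a₀ ≤ r * Y ^ (n₁ + 5) →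
    32 * Ct * (4 * Y ^ 8) ^ M * ((2 * Y ^ (s * (2 * n₁ + 4) + 1)) ^ (2 * (2 * s + 1)) /
      Real.sqrt ((Y ^ (8 * M + 1)) ^ 2) + ((Y ^ (8 * M + 1)) ^ 2) ^ s *
      ((6 * Y ^ (s * (2 * n₁ + 4) + 1)) ^ (2 * s + 1) *
      (((r : ℝ) ^ 2 * Y ^ 10) ^ (3 * (2 * s)) * a₀ ^ ((2 * s + 1) * (2 * s) - 1)))) ≤
      ε * c₀ ^ 2 * (Y ^ (s * (2 * n₁ + 4) + 1)) ^ (2 * (2 * s + 1)) := by
  obtain ⟨t, ht⟩ : ∃ t, (2 * s + 1) * (2 * s) - 1 = t := ⟨_, rfl⟩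
  have ht' : t + 1 = (2 * s + 1) * (2 * s) := by
    have : 1 ≤ (2 * s + 1) * (2 * s) := by nlinarith
    omega
  obtain ⟨β, hβ⟩ : ∃ β, s * (2 * n₁ + 4) + 1 = β := ⟨_, rfl⟩
  rw [ht, hβ]
  obtain ⟨D₁, hD₁⟩ : ∃ D₁ : ℝ, D₁ = 64 * Ct * 4 ^ M * 2 ^ (2 * (2 * s + 1)) / (ε * c₀ ^ 2) :=
    ⟨_, rfl⟩
  obtain ⟨D₂, hD₂⟩ : ∃ D₂ : ℝ, D₂ = 64 * Ct * 4 ^ M * 6 ^ (2 * s + 1) * (r : ℝ) ^ (12 * s) *
    (r : ℝ) ^ t / (ε * c₀ ^ 2) := ⟨_, rfl⟩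
  refine ⟨max 1 (max D₁ D₂), fun Y hY a₀ ha0 ha => ?_⟩
  have hY1 : 1 ≤ Y := (le_max_left _ _).trans hY
  have hYD1 : D₁ ≤ Y := ((le_max_left _ _).trans (le_max_right _ _)).trans hY
  have hYD2 : D₂ ≤ Y := ((le_max_right _ _).trans (le_max_right _ _)).trans hY
  have hY0 : 0 < Y := by linarith
  have hεc : 0 < ε * c₀ ^ 2 := by positivity
  rw [hD₁, div_le_iff₀ hεc] at hYD1
  rw [hD₂, div_le_iff₀ hεc] at hYD2
  rw [Real.sqrt_sq (by positivity)]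
  have hfirst : 32 * Ct * (4 * Y ^ 8) ^ M * ((2 * Y ^ β) ^ (2 * (2 * s + 1)) / Y ^ (8 * M + 1)) ≤
      ε * c₀ ^ 2 * (Y ^ β) ^ (2 * (2 * s + 1)) / 2 := by
    have e1 : 32 * Ct * (4 * Y ^ 8) ^ M * ((2 * Y ^ β) ^ (2 * (2 * s + 1)) / Y ^ (8 * M + 1)) =
        (64 * Ct * 4 ^ M * 2 ^ (2 * (2 * s + 1))) * ((Y ^ β) ^ (2 * (2 * s + 1)) / (2 * Y)) := by
      rw [mul_pow 4, mul_pow 2, pow_succ Y (8 * M), ← pow_mul Y 8 M]
      field_simp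
      ring
    rw [e1]
    have h1 := mul_le_mul_of_nonneg_right hYD1
      (by positivity : 0 ≤ (Y ^ β) ^ (2 * (2 * s + 1)) / (2 * Y))
    refine h1.trans (le_of_eq ?_)
    field_simp
  have hsecond : 32 * Ct * (4 * Y ^ 8) ^ M * (((Y ^ (8 * M + 1)) ^ 2) ^ s *
      ((6 * Y ^ β) ^ (2 * s + 1) * (((r : ℝ) ^ 2 * Y ^ 10) ^ (3 * (2 * s)) * a₀ ^ t))) ≤
      ε * c₀ ^ 2 * (Y ^ β) ^ (2 * (2 * s + 1)) / 2 := by
    have h1 : a₀ ^ t ≤ (r : ℝ) ^ t * Y ^ ((n₁ + 5) * t) := by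
      refine (pow_le_pow_left₀ ha0 ha t).trans (le_of_eq ?_)
      rw [mul_pow, ← pow_mul]
    have h2 : 32 * Ct * (4 * Y ^ 8) ^ M * (((Y ^ (8 * M + 1)) ^ 2) ^ s *
      ((6 * Y ^ β) ^ (2 * s + 1) * (((r : ℝ) ^ 2 * Y ^ 10) ^ (3 * (2 * s)) * a₀ ^ t))) ≤
      32 * Ct * (4 * Y ^ 8) ^ M * (((Y ^ (8 * M + 1)) ^ 2) ^ s *
      ((6 * Y ^ β) ^ (2 * s + 1) * (((r : ℝ) ^ 2 * Y ^ 10) ^ (3 * (2 * s)) *
        ((r : ℝ) ^ t * Y ^ ((n₁ + 5) * t))))) := by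
      gcongr
    refine h2.trans ?_
    have e1 : 32 * Ct * (4 * Y ^ 8) ^ M * (((Y ^ (8 * M + 1)) ^ 2) ^ s *
      ((6 * Y ^ β) ^ (2 * s + 1) * (((r : ℝ) ^ 2 * Y ^ 10) ^ (3 * (2 * s)) *
        ((r : ℝ) ^ t * Y ^ ((n₁ + 5) * t))))) =
        (64 * Ct * 4 ^ M * 6 ^ (2 * s + 1) * (r : ℝ) ^ (12 * s) * (r : ℝ) ^ t) *
        (Y ^ (8 * M + (16 * M + 2) * s + 60 * s + (n₁ + 5) * t) * (Y ^ β) ^ (2 * s + 1) / 2) := by
      have a1 : (4 * Y ^ 8) ^ M = 4 ^ M * Y ^ (8 * M) := by rw [mul_pow, ← pow_mul]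
      have a2 : ((Y ^ (8 * M + 1)) ^ 2) ^ s = Y ^ ((16 * M + 2) * s) := by
        rw [← pow_mul, ← pow_mul]; congr 1; ring
      have a3 : ((r : ℝ) ^ 2 * Y ^ 10) ^ (3 * (2 * s)) = (r : ℝ) ^ (12 * s) * Y ^ (60 * s) := by
        rw [mul_pow, ← pow_mul, ← pow_mul]
        congr 2 <;> ring
      rw [a1, a2, a3, mul_pow 6, pow_add, pow_add, pow_add]
      ring
    rw [e1]
    have h3 : Y ^ (8 * M + (16 * M + 2) * s + 60 * s + (n₁ + 5) * t) * Y ≤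
        (Y ^ β) ^ (2 * s + 1) := by
      rw [← pow_succ, ← pow_mul]
      apply pow_le_pow_right₀ hY1
      have ht2 : (t : ℤ) = (2 * s + 1) * (2 * s) - 1 := by
        have : ((t + 1 : ℕ) : ℤ) = (((2 * s + 1) * (2 * s) : ℕ) : ℤ) := by rw [ht']
        push_cast at this
        linarith
      zify
      rw [ht2, ← hβ, hn₁]
      push_cast
      nlinarith [Nat.zero_le s, Nat.zero_le (s * s)]
    have h4 := mul_le_mul_of_nonneg_right hYD2 (by positivity :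
      0 ≤ Y ^ (8 * M + (16 * M + 2) * s + 60 * s + (n₁ + 5) * t) * (Y ^ β) ^ (2 * s + 1) / 2)
    refine h4.trans ?_
    have h5 := mul_le_mul_of_nonneg_left h3 (by positivity :
      0 ≤ ε * c₀ ^ 2 * (Y ^ β) ^ (2 * s + 1) / 2)
    have e2 : (Y ^ β) ^ (2 * (2 * s + 1)) = (Y ^ β) ^ (2 * s + 1) * (Y ^ β) ^ (2 * s + 1) := by
      rw [← pow_add]; congr 1; ring
    rw [e2]
    refine le_trans (le_of_eq ?_) (h5.trans (le_of_eq ?_))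
    · ring
    · ring
  rw [mul_add]
  linarith

/-- The class theorem for borderline systems of quadratic forms. -/
theorem class_borderline_of (ι : Type*) [Fintype ι] {s : ℕ} (hs : 2 ≤ s)
    (h2s : Fintype.card ι = 2 * s + 1) (e : Fin s → ℕ) (he : ∀ j, e j = 0)
    (hLU : LocUpper ι s) (hTL : TestLower ι s)
    (hSM2 : ∃ Ct : ℝ, 0 < Ct ∧ SMS2 ι e Ct) (hreal : RealStmt ι e) :
    ClassStmtS ι e := by
  intro ε hε
  have hdeg : ∑ j, (e j + 2) + 1 ≤ Fintype.card ι := by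
    simp only [he]
    rw [Finset.sum_const, Finset.card_univ, Fintype.card_fin, smul_eq_mul]
    omega
  obtain ⟨Ct, hCt0, hCt⟩ := hSM2
  obtain ⟨Cu, hCu0, hCu⟩ : ∃ Cu : ℝ, 0 < Cu ∧ UB ι Cu :=
    unbal_bound ι (by omega : 2 ≤ Fintype.card ι)
  obtain ⟨cd, hcd0, hcd⟩ := Y349.C.det_lower ι e
  obtain ⟨k, hk⟩ : ∃ k, Fintype.card ι = k := ⟨_, rfl⟩
  rw [hk] at h2s hdeg
  obtain ⟨M, hM⟩ : ∃ M, ∑ j, (mons ι (e j + 2)).card = M := ⟨_, rfl⟩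
  obtain ⟨τ, hτ0, hτ1, hb0, hb1, hτF⟩ := Y349.C.exists_tauS s (ε := ε / 2) (by positivity)
  obtain ⟨n₁, hn₁⟩ : ∃ n₁ : ℕ, n₁ = 8 * M + 16 * M * s + 62 * s + 10 * s * (2 * s + 1) + 10 :=
    ⟨_, rfl⟩
  have hn₁M : 16 * M + 3 ≤ 2 * n₁ := by
    have : 0 ≤ 16 * M * s := Nat.zero_le _
    have : 0 ≤ 10 * s * (2 * s + 1) := Nat.zero_le _
    omega
  obtain ⟨α, hα⟩ : ∃ α : ℕ, α = 2 * n₁ + 4 := ⟨_, rfl⟩
  obtain ⟨β, hβ⟩ : ∃ β : ℕ, β = s * α + 1 := ⟨_, rfl⟩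
  obtain ⟨cc, hccd⟩ : ∃ cc : ℕ, cc = n₁ + 5 := ⟨_, rfl⟩
  obtain ⟨r, hrd⟩ : ∃ r : ℕ, r = cc + β + 2 := ⟨_, rfl⟩
  obtain ⟨r₁, hr₁d⟩ : ∃ r₁ : ℕ, r₁ = 2 * n₁ + 2 * β + 2 := ⟨_, rfl⟩
  have hcc : 2 ≤ cc := by omega
  have hr : 1 ≤ r := by omega
  have hr₁ : 1 ≤ r₁ := by omega
  have hαβ : s * α + 1 ≤ β := hβ.ge
  have hα0 : α ≠ 0 := by omega
  have hsα : 2 * α ≤ s * α := Nat.mul_le_mul_right _ hs
  have hαβ' : α + 1 ≤ β := by omega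
  have hccβ : cc ≤ β := by omega
  have hccr : cc + β + 2 ≤ 2 * r := by omega
  have hβcc : β + (k - 1) + 2 ≤ (k - 1) * cc := by
    have hk1 : k - 1 = 2 * s := by omega
    rw [hk1, hβ, hα, hccd]
    nlinarith
  refine ⟨⌈1 / τ⌉₊ + 1, by omega, ?_⟩
  intro w hw γ hγ hγ1 Q₀ hQ₀ η₀ hη₀
  have hw1 : 1 ≤ w := by omega
  have hwr : (1:ℝ) ≤ w := by exact_mod_cast hw1
  have hwτ : 1 / (w : ℝ) ≤ τ := by
    have h1 : 1 / τ ≤ w := by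
      refine (Nat.le_ceil _).trans ?_
      have : ⌈1 / τ⌉₊ ≤ w := by omega
      exact_mod_cast this
    rw [div_le_iff₀ hτ0] at h1
    rw [div_le_iff₀ (by linarith)]
    linarith
  have hQ₀r : (1:ℝ) ≤ Q₀ := by exact_mod_cast hQ₀
  obtain ⟨ρ, ρ', η, θ, hρ0, hρρ', hρ'2, hρ'η₀, hη0, hη1, hηη₀, hθ0, hreal'⟩ :=
    hreal τ γ η₀ hτ0 hτ1 hγ hγ1 hη₀
  obtain ⟨c₀, hc₀⟩ : ∃ c₀ : ℝ, c₀ = (2 * ρ) ^ (k - s) * η ^ s * cd / (Q₀ : ℝ) ^ k := ⟨_, rfl⟩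
  have hc₀0 : 0 < c₀ := by rw [hc₀]; positivity
  obtain ⟨T, hT⟩ : ∃ T : ℝ, T = (16 * Ct * 4 ^ M * 4 ^ k / (ε / 2 * c₀ ^ 2)) ^ 2 + 1 := ⟨_, rfl⟩
  have hT1 : 1 ≤ T := by
    rw [hT]
    have := sq_nonneg (16 * Ct * 4 ^ M * 4 ^ k / (ε / 2 * c₀ ^ 2))
    linarith
  have hTs : 16 * Ct * 4 ^ M * 4 ^ k / (ε / 2 * c₀ ^ 2) ≤ Real.sqrt T := by
    apply Real.le_sqrt_of_sq_le
    rw [hT]; linarith
  have hT0 : 0 < T := by linarith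
  obtain ⟨N, hN⟩ : ∃ N : ℕ, N = ⌈2 * T⌉₊ := ⟨_, rfl⟩
  have hNT : 2 * T ≤ N := by rw [hN]; exact Nat.le_ceil _
  obtain ⟨K, hK⟩ : ∃ K : ℕ, K = (∏ p ∈ (Finset.range (w + 1)).filter Nat.Prime, p) ^ N := ⟨_, rfl⟩
  have hK0 : 0 < K := by
    rw [hK]
    apply pow_pos
    apply Finset.prod_pos
    intro p hp
    exact (Finset.mem_filter.mp hp).2.pos
  have hKr : (1:ℝ) ≤ K := by exact_mod_cast hK0
  obtain ⟨τ₂, hτ₂0, hτ₂1, hτ₂2, hτ₂3⟩ := exists_ratio M hτ0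
  have hc1 : ∀ j, 0 ≤ c1pt k (e j + 1) := fun j => c1pt_nonneg _ _
  have hc2 : ∀ j, 0 ≤ cker k (e j) := fun j => cker_nonneg _ _
  have hcg : 0 ≤ cg k := by unfold cg; positivity
  obtain ⟨C₅, hC₅1, hC₅⟩ := exists_boundS (fun j => c1pt k (e j + 1) + cg k *
      (1 + (mons ι (e j + 2)).card * c1pt k (e j + 1)) / (1 / T))
  obtain ⟨C₆, hC₆1, hC₆⟩ := exists_boundS (fun j => cker k (e j))
  have hC₅c : ∀ j, c1pt k (e j + 1) ≤ C₅ := by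
    intro j
    have h1 := hC₅ j
    have h2 : 0 ≤ cg k *
      (1 + (mons ι (e j + 2)).card * c1pt k (e j + 1)) / (1 / T) := by
      have := hc1 j
      positivity
    linarith
  obtain ⟨δ, hδ⟩ : ∃ δ : ℝ, δ = τ₂ / (4 * C₅) := ⟨_, rfl⟩
  have hδ0 : 0 < δ := by rw [hδ]; positivity
  have hδc : C₅ * δ = τ₂ / 4 := by rw [hδ]; field_simp
  have hδ1 : δ ≤ 1 := by
    rw [hδ, div_le_one (by positivity)]; linarith
  obtain ⟨cR, hcR⟩ : ∃ cR : ℝ, cR = (2 * ρ) ^ (k - s) * (2 * δ * η) ^ s * cd / (Q₀ : ℝ) ^ k :=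
    ⟨_, rfl⟩
  have hcR0 : 0 < cR := by rw [hcR]; positivity
  obtain ⟨N', hN'⟩ : ∃ N' : ℕ, N' = ⌈6 ^ k / (τ * cR)⌉₊ + 1 := ⟨_, rfl⟩
  have hN'1 : 1 ≤ N' := by omega
  have hN'r : 6 ^ k / (τ * cR) ≤ N' := by
    rw [hN']
    push_cast
    have := Nat.le_ceil (6 ^ k / (τ * cR))
    linarith
  obtain ⟨Yc, hYc⟩ := h3_num (Ct := Ct) (ε := ε) (c₀ := c₀) (M := M) (s := s) (r := r)
    (n₁ := n₁) (by omega) hCt0 hε hc₀0 hr hn₁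
  obtain ⟨Yl, hYl⟩ := Y606.C.log_cond k r cc β
  obtain ⟨Yu, hYu⟩ := Y514.C.unbal_sys ι hCu0 hCu hk (by omega) (by omega : 1 ≤ cc) hr hccr hβcc
    hccβ (mul_pos hτ0 hcR0)
  -- the threshold for Y
  have hev : ∀ᶠ Y : ℝ in atTop, 64 ≤ Y ∧ (r : ℝ) ≤ Y ∧ 4 * C₅ * K * r / τ₂ ≤ Y ∧
      6 * C₆ * r ^ 2 ≤ Y ∧ 4 * cg k * r₁ / τ₂ ≤ Y ∧ T ≤ Y ∧
      5 * (8 * (k:ℝ) ^ 2 * r₁) ^ 3 + 1 ≤ Y ∧ Yc ≤ Y ∧ (K * N : ℝ) / (τ * δ) ≤ Y ∧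
      (K * N + N' : ℝ) * Q₀ / (θ * δ) ≤ Y ∧ 16 * Ct * 3 ^ M * 6 ^ k / (ε * c₀ ^ 2) ≤ Y ∧
      1 + 1 / τ₂ ≤ Y ∧ 1 / (τ * δ) ≤ Y ∧ Yl ≤ Y ∧ Yu ≤ Y := by
    filter_upwards [eventually_ge_atTop (64:ℝ), eventually_ge_atTop (r : ℝ),
      eventually_ge_atTop (4 * C₅ * K * r / τ₂),
      eventually_ge_atTop (6 * C₆ * r ^ 2), eventually_ge_atTop (4 * cg k * r₁ / τ₂),
      eventually_ge_atTop T, eventually_ge_atTop (5 * (8 * (k:ℝ) ^ 2 * r₁) ^ 3 + 1),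
      eventually_ge_atTop Yc,
      eventually_ge_atTop ((K * N : ℝ) / (τ * δ)),
      eventually_ge_atTop ((K * N + N' : ℝ) * Q₀ / (θ * δ)),
      eventually_ge_atTop (16 * Ct * 3 ^ M * 6 ^ k / (ε * c₀ ^ 2)),
      eventually_ge_atTop (1 + 1 / τ₂),
      eventually_ge_atTop (1 / (τ * δ)), eventually_ge_atTop Yl,
      eventually_ge_atTop Yu] with Y h1 h2 h3 h4 h4a h4b h4c h4d h5 h6 h7 h8 h9 h10 h11
    exact ⟨h1, h2, h3, h4, h4a, h4b, h4c, h4d, h5, h6, h7, h8, h9, h10, h11⟩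
  obtain ⟨Y₁, hY₁⟩ := Filter.eventually_atTop.mp hev
  obtain ⟨Y₀, hY₀⟩ : ∃ Y₀ : ℝ, Y₀ = max Y₁ 1 := ⟨_, rfl⟩
  have hY₀1 : 1 ≤ Y₀ := by rw [hY₀]; exact le_max_right _ _
  have hY₀Y₁ : Y₁ ≤ Y₀ := by rw [hY₀]; exact le_max_left _ _
  refine ⟨η, hη0, hη1, hηη₀, Q₀ * Y₀ ^ α / η, ?_⟩
  intro H hH fc S J xc ξ a Li hP hR hq
  obtain ⟨q, hqdef⟩ : ∃ q : ℕ, S * J = q := ⟨_, rfl⟩
  have hq1 : 1 ≤ q := by rw [← hqdef]; exact Nat.mul_pos hP.hS hP.hJ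
  have hqr : (1:ℝ) ≤ q := by exact_mod_cast hq1
  have hqQ : (q:ℝ) ≤ Q₀ := by rw [← hqdef]; exact_mod_cast hq
  have hH0 : 0 < H := lt_of_lt_of_le (by positivity) hH
  obtain ⟨A, hA⟩ : ∃ A : ℝ, η * H / ((S * J : ℕ) : ℝ) = A := ⟨_, rfl⟩
  rw [hA]
  rw [hqdef] at hA
  have hAq : q * A = η * H := by rw [← hA]; field_simp
  have hA₀ : Y₀ ^ α ≤ A := by
    rw [div_le_iff₀ hη0] at hH
    have h1 : (q:ℝ) * Y₀ ^ α ≤ q * A := by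
      rw [hAq]
      have : (q:ℝ) * Y₀ ^ α ≤ Q₀ * Y₀ ^ α := mul_le_mul_of_nonneg_right hqQ (by positivity)
      linarith
    exact le_of_mul_le_mul_left h1 (by linarith)
  have hA0 : 0 < A := lt_of_lt_of_le (by positivity) hA₀
  obtain ⟨Y, hY⟩ : ∃ Y : ℝ, Y = A ^ ((α : ℝ)⁻¹) := ⟨_, rfl⟩
  have hYA : Y ^ α = A := by rw [hY]; exact Real.rpow_inv_natCast_pow hA0.le hα0
  have hYnn : 0 ≤ Y := by rw [hY]; positivity
  have hYY₀ : Y₀ ≤ Y := by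
    rw [← hYA] at hA₀
    exact le_of_pow_le_pow_left₀ hα0 hYnn hA₀
  obtain ⟨y1, y2, y3, y4, y4a, y4b, y4c, y4d, y5, y6, y9, y10, y11, y12, y13⟩ :=
    hY₁ Y (hY₀Y₁.trans hYY₀)
  clear hY₁ hev
  have hY0 : 0 < Y := by linarith
  have hY1 : 1 ≤ Y := by linarith
  obtain ⟨P, hPdef⟩ : ∃ P : ℝ, P = Y ^ β := ⟨_, rfl⟩
  have hPY : Y ≤ P := by
    rw [hPdef]
    exact le_self_pow₀ hY1 (by omega)
  have hP0 : 0 < P := by linarith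
  have hP1 : 1 ≤ P := by linarith
  have hAY : Y ≤ A := by
    rw [← hYA]
    exact le_self_pow₀ hY1 hα0
  -- the parameter a₀
  obtain ⟨a₀, ha₀⟩ : ∃ a₀ : ℝ, a₀ = (r : ℝ) * ((⌊Y ^ cc⌋₊ : ℕ) : ℝ) := ⟨_, rfl⟩
  have hfl1 : 1 ≤ ⌊Y ^ cc⌋₊ := by
    apply Nat.le_floor
    push_cast
    exact one_le_pow₀ hY1
  have hrr : (1:ℝ) ≤ r := by exact_mod_cast hr
  have hfl1' : (1:ℝ) ≤ ((⌊Y ^ cc⌋₊ : ℕ) : ℝ) := by exact_mod_cast hfl1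
  have ha1 : 1 ≤ a₀ := by
    rw [ha₀]
    exact one_le_mul_of_one_le_of_one_le hrr hfl1'
  have haY : a₀ ≤ r * Y ^ cc := by
    rw [ha₀]
    exact mul_le_mul_of_nonneg_left (Nat.floor_le (by positivity)) (by linarith)
  have haB : a₀ ≤ 2 * P := by
    have h1 : r * Y ^ cc ≤ Y * Y ^ cc := mul_le_mul_of_nonneg_right y2 (by positivity)
    have h2 : Y * Y ^ cc ≤ P := by
      rw [hPdef, mul_comm, ← pow_succ]
      exact pow_le_pow_right₀ hY1 (by omega)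
    linarith
  have haA₁ : C₅ * (K * a₀) ≤ τ₂ / 4 * A := by
    have h1 : 4 * C₅ * K * r ≤ Y * τ₂ := by rwa [div_le_iff₀ hτ₂0] at y3
    have h2 : C₅ * (K * a₀) ≤ C₅ * (K * (r * Y ^ cc)) := by
      apply mul_le_mul_of_nonneg_left _ (by linarith)
      exact mul_le_mul_of_nonneg_left haY (by linarith)
    have h3 : C₅ * (K * (r * Y ^ cc)) = (4 * C₅ * K * r) * (Y ^ cc / 4) := by ring
    have h4 := mul_le_mul_of_nonneg_right h1 (by positivity : 0 ≤ Y ^ cc / 4)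
    have h5 : Y * Y ^ cc ≤ A := by
      rw [← hYA, mul_comm, ← pow_succ]
      exact pow_le_pow_right₀ hY1 (by omega)
    have h6 := mul_le_mul_of_nonneg_left h5 (by positivity : 0 ≤ τ₂ / 4)
    linarith
  have ha₀2 : a₀ ^ 2 ≤ (r : ℝ) ^ 2 * Y ^ (2 * n₁ + 10) := by
    have h2 : a₀ ^ 2 ≤ (r * Y ^ cc) ^ 2 := pow_le_pow_left₀ (by linarith) haY 2
    refine h2.trans (le_of_eq ?_)
    rw [mul_pow, ← pow_mul, hccd]
    congr 2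
    ring
  have haΛ : ∀ j, 2 * cker k (e j) * ((1 + 2 * Y) * a₀ ^ 2) ≤ Y ^ 8 * A := by
    intro j
    have h1 := mul_le_mul_of_nonneg_right (hC₆ j)
      (by positivity : 0 ≤ (1 + 2 * Y) * a₀ ^ 2)
    have h3 : (1 + 2 * Y) * a₀ ^ 2 ≤ (3 * Y) * ((r : ℝ) ^ 2 * Y ^ (2 * n₁ + 10)) :=
      mul_le_mul (by linarith) ha₀2 (by positivity) (by positivity)
    have h4 := mul_le_mul_of_nonneg_left h3 (by linarith : 0 ≤ 2 * C₆)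
    have h5 : 2 * C₆ * ((3 * Y) * ((r : ℝ) ^ 2 * Y ^ (2 * n₁ + 10))) =
      (6 * C₆ * r ^ 2) * (Y * Y ^ (2 * n₁ + 10)) := by ring
    have h6 := mul_le_mul_of_nonneg_right y4 (by positivity : 0 ≤ Y * Y ^ (2 * n₁ + 10))
    have h7 : Y * (Y * Y ^ (2 * n₁ + 10)) = Y ^ 8 * A := by
      rw [← hYA, hα, ← pow_succ', ← pow_succ', ← pow_add]
      congr 1
      ring
    linarith
  -- goodness
  obtain ⟨m₁, hm₁d⟩ : ∃ m₁ : ℕ, m₁ = ⌊Y ^ (2 * n₁ + 2)⌋₊ := ⟨_, rfl⟩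
  have hYn1 : (1:ℝ) ≤ Y ^ (2 * n₁ + 2) := one_le_pow₀ hY1
  have hm₁ : 1 ≤ m₁ := by
    rw [hm₁d]
    apply Nat.le_floor
    push_cast
    exact hYn1
  have hm₁r : (1:ℝ) ≤ m₁ := by exact_mod_cast hm₁
  have hm₁Y : (m₁ : ℝ) ≤ Y ^ (2 * n₁ + 2) := by rw [hm₁d]; exact Nat.floor_le (by positivity)
  have hm₁low : Y ^ (2 * n₁ + 2) ≤ 2 * m₁ := by
    have h1 : Y ^ (2 * n₁ + 2) < m₁ + 1 := by rw [hm₁d]; exact Nat.lt_floor_add_one _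
    linarith
  have hr₁r : (1:ℝ) ≤ r₁ := by exact_mod_cast hr₁
  obtain ⟨ε₁, hε₁d⟩ : ∃ ε₁ : ℝ, ε₁ = 1 / Y ^ (2 * n₁) := ⟨_, rfl⟩
  have hε₁ : 0 < ε₁ := by rw [hε₁d]; positivity
  have hε₁Y : ε₁ * Y ^ (2 * n₁) = 1 := by rw [hε₁d]; field_simp
  have hn₁1 : 1 ≤ n₁ := by omega
  have hε₁4 : ε₁ ≤ 1 / 4 := by
    rw [hε₁d]
    apply div_le_div_of_nonneg_left (by norm_num) (by norm_num)
    have : Y ≤ Y ^ (2 * n₁) := le_self_pow₀ hY1 (by omega)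
    linarith
  have hrm : 1 + (r₁:ℝ) * m₁ ≤ 2 * r₁ * Y ^ (2 * n₁ + 2) := by
    have h1 : (r₁:ℝ) * m₁ ≤ r₁ * Y ^ (2 * n₁ + 2) :=
      mul_le_mul_of_nonneg_left hm₁Y (by linarith)
    have h2 : 1 ≤ (r₁:ℝ) * Y ^ (2 * n₁ + 2) := one_le_mul_of_one_le_of_one_le hr₁r hYn1
    linarith
  have hcgA : cg k * (1 + r₁ * m₁) ≤ τ₂ / 2 * A := by
    have h1 : 4 * cg k * r₁ ≤ Y * τ₂ := by rwa [div_le_iff₀ hτ₂0] at y4a
    have h2 := mul_le_mul_of_nonneg_left hrm hcg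
    have h3 := mul_le_mul_of_nonneg_right h1 (by positivity : 0 ≤ Y ^ (2 * n₁ + 2) / 2)
    have h4 : Y * Y ^ (2 * n₁ + 2) ≤ A := by
      rw [← hYA, ← pow_succ']
      exact pow_le_pow_right₀ hY1 (by omega)
    have h5 := mul_le_mul_of_nonneg_left h4 (by positivity : 0 ≤ τ₂ / 2)
    linarith
  obtain ⟨T', hT'd⟩ : ∃ T' : ℝ, T' = (Y ^ (8 * M + 1)) ^ 2 := ⟨_, rfl⟩
  have hTT' : T ≤ T' := by
    have h1 : Y ≤ T' := by
      rw [hT'd, ← pow_mul]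
      exact le_self_pow₀ hY1 (by omega)
    linarith
  have hεT : 64 * ε₁ * T' ≤ 1 := by
    have h1 : 64 * T' ≤ Y ^ (2 * n₁) := by
      have h2 : 64 * T' ≤ Y * T' := mul_le_mul_of_nonneg_right y1 (by rw [hT'd]; positivity)
      refine h2.trans ?_
      rw [hT'd, ← pow_mul, ← pow_succ']
      exact pow_le_pow_right₀ hY1 (by omega)
    have h2 := mul_le_mul_of_nonneg_left h1 hε₁.le
    linarith
  obtain ⟨Ee, hEed⟩ : ∃ Ee : ℝ, Ee = (r : ℝ) ^ 2 * Y ^ 10 := ⟨_, rfl⟩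
  have hEe : 1 ≤ Ee := by
    rw [hEed]
    exact one_le_mul_of_one_le_of_one_le (one_le_pow₀ hrr) (one_le_pow₀ hY1)
  have haE : a₀ ^ 2 * ε₁ ≤ Ee := by
    have h1 := mul_le_mul_of_nonneg_right ha₀2 hε₁.le
    refine h1.trans (le_of_eq ?_)
    rw [hEed, pow_add Y (2 * n₁) 10]
    linear_combination ((r:ℝ) ^ 2 * Y ^ 10) * hε₁Y
  have hk1r : (1:ℝ) ≤ k := by exact_mod_cast (by omega : 1 ≤ k)
  have hsm : 5 * (((k : ℝ) ^ 2 * r₁ * m₁ + 1) * (2 * P) ^ 2) ^ 3 *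
      (1 / (2 * m₁ * ε₁)) ^ (2 * r₁) < 1 := by
    have h1 : Y ^ 2 ≤ 2 * m₁ * ε₁ := by
      have h2 := mul_le_mul_of_nonneg_right hm₁low hε₁.le
      have h3 : Y ^ (2 * n₁ + 2) * ε₁ = Y ^ 2 := by
        rw [pow_add]
        linear_combination Y ^ 2 * hε₁Y
      linarith
    have h4 : (1 / (2 * m₁ * ε₁)) ^ (2 * r₁) ≤ (1 / Y ^ 2) ^ (2 * r₁) := by
      apply pow_le_pow_left₀ (by positivity)
      exact div_le_div_of_nonneg_left (by norm_num) (by positivity) h1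
    have h5 : (k : ℝ) ^ 2 * r₁ * m₁ + 1 ≤ 2 * (k:ℝ) ^ 2 * r₁ * Y ^ (2 * n₁ + 2) := by
      have h6 : (k : ℝ) ^ 2 * r₁ * m₁ ≤ (k : ℝ) ^ 2 * r₁ * Y ^ (2 * n₁ + 2) :=
        mul_le_mul_of_nonneg_left hm₁Y (by positivity)
      have h7 : 1 ≤ (k : ℝ) ^ 2 * r₁ * Y ^ (2 * n₁ + 2) :=
        one_le_mul_of_one_le_of_one_le (one_le_mul_of_one_le_of_one_le (one_le_pow₀ hk1r) hr₁r)
          hYn1
      linarith
    have h8 : ((k : ℝ) ^ 2 * r₁ * m₁ + 1) * (2 * P) ^ 2 ≤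
        8 * (k:ℝ) ^ 2 * r₁ * Y ^ (2 * n₁ + 2 + 2 * β) := by
      have h9 := mul_le_mul_of_nonneg_right h5 (by positivity : 0 ≤ (2 * P) ^ 2)
      refine h9.trans (le_of_eq ?_)
      rw [hPdef, pow_add Y (2 * n₁ + 2) (2 * β), mul_comm 2 β, pow_mul Y β 2]
      ring
    have h10 := pow_le_pow_left₀ (by positivity) h8 3
    have h11 : 5 * (((k : ℝ) ^ 2 * r₁ * m₁ + 1) * (2 * P) ^ 2) ^ 3 *
        (1 / (2 * m₁ * ε₁)) ^ (2 * r₁) ≤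
        5 * (8 * (k:ℝ) ^ 2 * r₁ * Y ^ (2 * n₁ + 2 + 2 * β)) ^ 3 * (1 / Y ^ 2) ^ (2 * r₁) :=
      mul_le_mul (mul_le_mul_of_nonneg_left h10 (by norm_num)) h4 (by positivity) (by positivity)
    refine lt_of_le_of_lt h11 ?_
    have h12 : 5 * (8 * (k:ℝ) ^ 2 * r₁ * Y ^ (2 * n₁ + 2 + 2 * β)) ^ 3 * (1 / Y ^ 2) ^ (2 * r₁) =
        5 * (8 * (k:ℝ) ^ 2 * r₁) ^ 3 * (Y ^ (6 * n₁ + 6 + 6 * β) / Y ^ (4 * r₁)) := by
      rw [mul_pow _ (Y ^ (2 * n₁ + 2 + 2 * β)) 3, ← pow_mul, one_div, inv_pow, ← pow_mul]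
      have e1 : (2 * n₁ + 2 + 2 * β) * 3 = 6 * n₁ + 6 + 6 * β := by ring
      have e2 : 2 * (2 * r₁) = 4 * r₁ := by ring
      rw [e1, e2]
      ring
    rw [h12]
    have h13 : Y ^ (6 * n₁ + 6 + 6 * β) / Y ^ (4 * r₁) ≤ 1 / Y := by
      rw [div_le_div_iff₀ (by positivity) hY0, one_mul, ← pow_succ]
      exact pow_le_pow_right₀ hY1 (by omega)
    have h14 := mul_le_mul_of_nonneg_left h13 (by positivity :
      0 ≤ 5 * (8 * (k:ℝ) ^ 2 * r₁) ^ 3)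
    refine lt_of_le_of_lt h14 ?_
    rw [mul_one_div, div_lt_one hY0]
    linarith
  -- the widths
  obtain ⟨Δ, hΔ⟩ : ∃ Δ : Fin s → ℝ, Δ = fun j => δ * A * P ^ (e j + 2) := ⟨_, rfl⟩
  have hΔj : ∀ j, Δ j = δ * A * P ^ (e j + 2) := fun j => by rw [hΔ]
  have hPe : ∀ j, (1:ℝ) ≤ P ^ (e j + 2) := fun j => one_le_pow₀ hP1
  have hΔ0 : ∀ j, 0 < Δ j := fun j => by rw [hΔj]; positivity
  have hΔA : ∀ j, τ * (δ * A) ≤ τ * Δ j := by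
    intro j
    rw [hΔj]
    exact mul_le_mul_of_nonneg_left (le_mul_of_one_le_right (by positivity) (hPe j)) hτ0.le
  have hKNΔ : ∀ j, (K * N : ℝ) ≤ τ * Δ j := by
    intro j
    refine le_trans ?_ (hΔA j)
    have h1 : (K * N : ℝ) ≤ Y * (τ * δ) := by rwa [div_le_iff₀ (by positivity)] at y5
    have h2 := mul_le_mul_of_nonneg_right hAY (by positivity : 0 ≤ τ * δ)
    linarith
  have h1Δ : ∀ j, 1 ≤ τ * Δ j := by
    intro j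
    refine le_trans ?_ (hΔA j)
    have h1 : 1 ≤ Y * (τ * δ) := by rwa [div_le_iff₀ (by positivity)] at y11
    have h2 := mul_le_mul_of_nonneg_right hAY (by positivity : 0 ≤ τ * δ)
    linarith
  have hΔP : ∀ j, Δ j / (2 * P) ^ (e j + 2) ≤ δ * A := by
    intro j
    rw [hΔj, div_le_iff₀ (by positivity)]
    apply mul_le_mul_of_nonneg_left _ (by positivity)
    exact pow_le_pow_left₀ hP0.le (by linarith) _
  have hΔP0 : ∀ j, 0 ≤ Δ j / (2 * P) ^ (e j + 2) := fun j => by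
    have := hΔ0 j
    positivity
  have hδA : C₅ * (δ * A) = τ₂ / 4 * A := by rw [← mul_assoc, hδc]
  have hA₂ : ∀ j, A + (c1pt k (e j + 1) + cg k *
      (1 + (mons ι (e j + 2)).card * c1pt k (e j + 1)) / (1 / T)) *
      (Δ j / (2 * P) ^ (e j + 2) + K * a₀) + cg k * (1 + r₁ * m₁) ≤
      (1 + τ₂) * A := by
    intro j
    have h1 := mul_le_mul_of_nonneg_right (hC₅ j) (by
      have := hΔP0 j
      positivity : 0 ≤ Δ j / (2 * P) ^ (e j + 2) + K * a₀)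
    have h2 : C₅ * (Δ j / (2 * P) ^ (e j + 2) + K * a₀) ≤ C₅ * (δ * A + K * a₀) :=
      mul_le_mul_of_nonneg_left (by linarith [hΔP j]) (by linarith)
    have h4 : C₅ * (δ * A + K * a₀) = C₅ * (δ * A) + C₅ * (K * a₀) := by ring
    linarith
  have hC₅a : ∀ j, c1pt k (e j + 1) * a₀ ≤ τ₂ / 4 * A := by
    intro j
    have h1 := mul_le_mul_of_nonneg_right (hC₅c j) (by linarith : 0 ≤ a₀)
    have h2 : C₅ * a₀ ≤ C₅ * (K * a₀) := by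
      apply mul_le_mul_of_nonneg_left _ (by linarith)
      exact le_mul_of_one_le_left (by linarith) hKr
    linarith
  have hA' : ∀ j, (1 - τ₂) * A + c1pt k (e j + 1) * (Δ j / (2 * P) ^ (e j + 2) + a₀) ≤ A := by
    intro j
    have h1 := hC₅a j
    have h2 : c1pt k (e j + 1) * (Δ j / (2 * P) ^ (e j + 2)) ≤ C₅ * (δ * A) :=
      mul_le_mul (hC₅c j) (hΔP j) (hΔP0 j) (by linarith)
    have h3 : 0 ≤ τ₂ * A := by positivity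
    linarith
  have hτA : τ₂ * A ≤ 1 / 4 * A := mul_le_mul_of_nonneg_right hτ₂1 hA0.le
  have haA : ∀ j, 2 * c1pt k (e j + 1) * a₀ ≤ A := by
    intro j
    have h1 := hC₅a j
    linarith
  have hmA : 2 * cg k * (1 + r₁ * m₁) ≤ A := by linarith
  have hLg : ∀ t : ℕ, (t : ℝ) ≤ 15 * (k:ℝ) ^ 2 * a₀ * (2 * P) → (Nat.log 2 t : ℝ) ≤ 2 * Y := by
    intro t ht
    exact hYl Y y12 t (by rwa [ha₀, hPdef] at ht)
  -- the volume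
  obtain ⟨V, hV⟩ : ∃ V : ℝ, V = (2 * ρ * P) ^ (k - s) * (2 * δ * η * P) ^ s * |Li.det| := ⟨_, rfl⟩
  obtain ⟨R, hRdef⟩ : ∃ R : ℝ, nuJ fc J xc * V / ((S * J : ℕ) : ℝ) ^ k = R := ⟨_, rfl⟩
  have hdt : cd ≤ |Li.det| := hcd H γ η fc ξ a Li hH0 hR
  have hSJQ : ((S * J : ℕ) : ℝ) ≤ Q₀ := by exact_mod_cast hq
  have hSJ0 : 0 < S * J := Nat.mul_pos hP.hS hP.hJ
  have hRlow : cR * P ^ k ≤ R := by
    rw [hcR]
    exact R_low (by omega) hρ0 hδ0 hη0 hP0 hcd0 (nuJ_pos fc hP.hJ xc) hdt hV hSJ0 hSJQ hRdef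
  have hR0 : 0 < R := lt_of_lt_of_le (by positivity) hRlow
  have hV0 : 0 ≤ V := by
    rw [hV]
    exact mul_nonneg (by positivity) (abs_nonneg _)
  have hr' := rho_lowS (e := e) (Δ := Δ) (A := A) (by omega : s ≤ k) hρ0 hδ0 hη0 hP0 hA0 hcd0
    (nuJ_pos fc hP.hJ xc) hdt hV hSJ0 hSJQ hRdef hc₀ hΔj
  -- class members
  have hslab : ∀ A₃ : ℝ, A₃ ≤ 2 * A → ∀ g ∈ sysZ ι e A₃,
      SlabCount V τ (θ * δ * P) (fun j => ((S * J : ℕ) : ℝ) * Δ j) P ξ a ρ ρ'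
        (memS fc S J g) := by
    intro A₃ hA₃ g hg
    have h1 := hreal' δ hδ0 hδ1 H P fc ξ a Li hH0 hP0 hR
      (fun j => MvPolynomial.C ((S * J : ℕ) : ℤ) * g j) (by
        intro j
        refine ((mem_sysZ.mp hg j).C_mul _).mono ?_
        rw [hqdef, Int.cast_natCast, abs_of_nonneg (by linarith : (0:ℝ) ≤ q)]
        have h1 : (q:ℝ) * A₃ ≤ q * (2 * A) := mul_le_mul_of_nonneg_left hA₃ (by linarith)
        have h2 : (q:ℝ) * (2 * A) = 2 * η * H := by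
          have : (q:ℝ) * (2 * A) = 2 * (q * A) := by ring
          rw [this, hAq]; ring
        linarith)
    rw [hk, ← hV] at h1
    have h2 : (fun j => δ * (η * H) * P ^ (e j + 2)) = (fun j => ((S * J : ℕ) : ℝ) * Δ j) := by
      funext j
      rw [hΔj, hqdef, ← hAq]; ring
    rw [h2] at h1
    exact h1
  have hM₀ : ((S * J * K * N : ℕ) : ℝ) ≤ θ * δ * P ∧ ((S * J * N' : ℕ) : ℝ) ≤ θ * δ * P := by
    have h1 : (K * N + N' : ℝ) * Q₀ ≤ Y * (θ * δ) := by rwa [div_le_iff₀ (by positivity)] at y6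
    have h2 := mul_le_mul_of_nonneg_right hPY (by positivity : 0 ≤ θ * δ)
    have h3 : (0:ℝ) ≤ K * N := by positivity
    have h4 : (0:ℝ) ≤ N' := by positivity
    have h5 := mul_le_mul_of_nonneg_right hSJQ h3
    have h6 := mul_le_mul_of_nonneg_right hSJQ h4
    have h7 : 0 ≤ (Q₀:ℝ) * (K * N) := by positivity
    have h8 : 0 ≤ (Q₀:ℝ) * N' := by positivity
    constructor
    · push_cast at h5 ⊢
      linarith
    · push_cast at h6 ⊢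
      linarith
  have hN'R : (6 * P) ^ k / N' ≤ τ * R := by
    have hN'0 : (0:ℝ) < N' := by exact_mod_cast hN'1
    rw [div_le_iff₀ hN'0, mul_pow]
    rw [div_le_iff₀ (by positivity)] at hN'r
    have h1 := mul_le_mul_of_nonneg_right hN'r (by positivity : 0 ≤ P ^ k)
    have h2 := mul_le_mul_of_nonneg_left hRlow (by positivity : 0 ≤ (N' : ℝ) * τ)
    linarith
  have hub : ∀ U : Finset (ι → ℤ), (∀ x ∈ U, Sz (2 * P) x ∧ Prim x ∧ ¬ Bal (2 * P) a₀ x) →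
      (U.card : ℝ) ≤ τ * R := by
    intro U hU
    have h1 := hYu Y y13 U (by rw [← hPdef, ← ha₀]; exact hU)
    rw [← hPdef] at h1
    have h2 := mul_le_mul_of_nonneg_left hRlow hτ0.le
    linarith
  -- cardinalities
  obtain ⟨G, hG⟩ : ∃ G : ℝ, ((sysZ ι e A).card : ℝ) = G := ⟨_, rfl⟩
  have hA3 : 3 ≤ A := by linarith
  have hY8 : (1:ℝ) ≤ Y ^ 8 := one_le_pow₀ hY1
  have hτ₂A : 1 + τ₂ ≤ τ₂ * A := by
    have h1 : 1 + 1 / τ₂ ≤ A := y10.trans hAY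
    have h2 := mul_le_mul_of_nonneg_left h1 hτ₂0.le
    have h3 : τ₂ * (1 + 1 / τ₂) = 1 + τ₂ := by field_simp; ring
    linarith
  have hG0 : 0 < G := by
    rw [← hG, card_sysZ]
    have : 0 < ∏ j, (formsZ ι (e j + 2) A).card :=
      Finset.prod_pos (fun j _ => card_forms_pos _ hA0.le)
    exact_mod_cast this
  have hG₂ : ((sysZ ι e ((1 + τ₂) * A)).card : ℝ) ≤ (1 + τ) * G := by
    have h1 := Y349.C.sys_upper ι e (A := A) (R := (1 + τ₂) * A) (c := 1 + 2 * τ₂) (by linarith)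
      (by positivity) (by positivity) (by linarith)
    rw [hM, hG] at h1
    exact h1.trans (mul_le_mul_of_nonneg_right hτ₂2 hG0.le)
  have hG' : (1 - τ) * G ≤ ((sysZ ι e ((1 - τ₂) * A)).card : ℝ) := by
    have h1 := Y349.C.sys_lower ι e (A := A) (R := (1 - τ₂) * A) (c := 1 - 2 * τ₂) (by linarith)
      (mul_nonneg (by linarith) hA0.le) (by linarith) (by linarith)
    rw [hM, hG] at h1
    exact le_trans (mul_le_mul_of_nonneg_right hτ₂3 hG0.le) h1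
  have hG3A : ((sysZ ι e (3 * A)).card : ℝ) ≤ 4 ^ M * G := by
    have h1 := Y349.C.sys_upper ι e (A := A) (R := 3 * A) (c := 4) (by linarith)
      (by positivity) (by positivity) (by linarith)
    rwa [hM, hG] at h1
  have hG2A : ((sysZ ι e (2 * A)).card : ℝ) ≤ 3 ^ M * G := by
    have h1 := Y349.C.sys_upper ι e (A := A) (R := 2 * A) (c := 3) (by linarith)
      (by positivity) (by positivity) (by linarith)
    rwa [hM, hG] at h1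
  have hGΛ : ((sysZ ι e (3 * (Y ^ 8 * A))).card : ℝ) ≤ (4 * Y ^ 8) ^ M * G := by
    have h0 : 3 * Y ^ 8 ≤ Y ^ 8 * A := by
      rw [mul_comm]
      exact mul_le_mul_of_nonneg_left hA3 (by linarith)
    have h1 := Y349.C.sys_upper ι e (A := A) (R := 3 * (Y ^ 8 * A)) (c := 4 * Y ^ 8)
      (by linarith) (by positivity) (by positivity) (by
        have h2 : 4 * Y ^ 8 * (2 * A - 1) = 8 * (Y ^ 8 * A) - 4 * Y ^ 8 := by ring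
        rw [h2]
        linarith)
    rwa [hM, hG] at h1
  have h3 := hYc Y y4d a₀ (by linarith) (by rw [← hccd]; exact haY)
  -- the bound U
  have hUY : A ^ s * P ^ (∑ j, (e j + 2)) * Y ≤ P ^ k := by
    have h1 : A ^ s * Y ≤ P := by
      rw [← hYA, ← pow_mul, ← pow_succ, hPdef]
      exact pow_le_pow_right₀ hY1 (by rw [mul_comm α s]; exact hαβ)
    have h2 : P * P ^ (∑ j, (e j + 2)) ≤ P ^ k := by
      rw [← pow_succ']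
      exact pow_le_pow_right₀ hP1 hdeg
    have h3 := mul_le_mul_of_nonneg_right h1 (by positivity : 0 ≤ P ^ (∑ j, (e j + 2)))
    linarith
  have hU2 : A ^ s * P ^ (∑ j, (e j + 2)) ≤ ∏ j, (A * (2 * P) ^ (e j + 2)) := by
    rw [Finset.prod_mul_distrib, Finset.prod_const, Finset.card_univ, Fintype.card_fin,
      Finset.prod_pow_eq_pow_sum]
    apply mul_le_mul_of_nonneg_left _ (by positivity)
    exact pow_le_pow_left₀ hP0.le (by linarith) _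
  have hU1 : (A ^ s * P ^ (∑ j, (e j + 2))) ^ 2 ≤ ∏ j, (A ^ 2 * (2 * P) ^ (2 * e j + 4)) := by
    have h1 := pow_le_pow_left₀ (by positivity) hU2 2
    refine h1.trans (le_of_eq ?_)
    rw [← Finset.prod_pow]
    apply Finset.prod_congr rfl
    intro j _
    rw [mul_pow, ← pow_mul]
    congr 2
    ring
  -- conclusion
  have hcore := class_core2 hk (by omega) hLU hTL hCt0 hCt hε hτ0 hτ1 hb0 hb1 hτF hw1 hwτ hT1 hc₀0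
    hTs hTT' hY8 hε₁ hε₁4 hεT hEe hm₁ hr₁ hNT hK hK0 hN'1 y9 (by positivity) hUY hU1 hU2 hP hρ0
    hρρ' hρ'2 hR.hξ hR.hξr hV0 hRdef
    hR0 hslab hM₀.1 hM₀.2 hN'R hA0 hP1 haE hsm hub hr' ha1 haB hΔ0 hKNΔ h1Δ hA₂ hA' haA hmA haΛ
    hLg hτ₂0 hτ₂1 hG hG0 hG₂ hG' hG3A hG2A hGΛ (by
      have hk1 : k - 1 = 2 * s := by omega
      have hk2 : k = 2 * s + 1 := by omega
      rw [hEed, hT'd, hPdef, hk1, hk2, hβ, hα]
      exact h3)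
  refine le_trans ?_ hcore
  refine card_filter_le' _ _ _ (fun g _ hg hz => hg ?_)
  obtain ⟨x, hx, hx1, hx2⟩ := hz
  have hx' := mem_boxS.mp hx
  refine ⟨x, hx1, hx2, hx'.2.1, P, hP0, fun i => ?_⟩
  refine (hx'.1 i).trans ?_
  rw [mul_comm η₀ P]
  apply mul_le_mul_of_nonneg_left _ hP0.le
  unfold wdS
  split_ifs
  · exact hρ'η₀
  · exact hρρ'.trans hρ'η₀

end Pool.Agent.Y716.D
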