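import Pool.Agent.Y716.C.Good

/-!
# Borderline systems of quadratic forms: definitions and statements of the parts

`s` quadratic forms in `2 s + 1` variables.
-/

namespace Pool.Agent.Y716.D

open Pool.Agent.Y716.Q Pool.Agent.Y716.C

variable {ι : Type*}

/-- `(x, y)` is a good pair: all integral matrices within `ε` of a real combination of `x xᵀ` and
`y yᵀ` are themselves such combinations. -/
def GoodP (ε : ℝ) (x y : ι → ℤ) : Prop :=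
  ∀ (α β : ℝ) (M : ι → ι → ℤ),
    (∀ i j, |α * ((x i : ℝ) * (x j : ℝ)) + β * ((y i : ℝ) * (y j : ℝ)) - (M i j : ℝ)| < ε) →
    ∃ α' β' : ℝ, ∀ i j,
      (M i j : ℝ) = α' * ((x i : ℝ) * (x j : ℝ)) + β' * ((y i : ℝ) * (y j : ℝ))

/-- forms of degree `e + 2` vanishing at `x` with given value at `y` (divisible by `g`) -/
def KerP [Fintype ι] (e : ℕ) (B μ c b : ℝ) (x y : ι → ℤ) (g : ℤ) : Prop :=
  ∀ v : ℤ, g ∣ v → ∃ f : MvPolynomial ι ℤ,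
    IsF (e + 2) (c * (|(v : ℝ)| / (μ * B ^ e) + b)) f ∧
    MvPolynomial.eval x f = 0 ∧ MvPolynomial.eval y f = v

/-- constant of the kernel lemma for good pairs -/
noncomputable def cg (k : ℕ) : ℝ := 4 * (k : ℝ) ^ 2

/-- Kernel lemma for good pairs (job D1). -/
def KernelGood (ι : Type*) [Fintype ι] : Prop :=
  ∀ (B ε μ : ℝ) (x y : ι → ℤ) (g : ℤ) (m r : ℕ), 1 ≤ B → Sz B x → Prim x → Sz B y → Prim y →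
    g ≠ 0 → (∀ i j, g ∣ mn x y i j) → (∀ D, (∀ i j, D ∣ mn x y i j) → D ∣ g) → 0 < μ →
    (∃ i j, μ ≤ |(mn x y i j : ℝ)|) → 0 < ε → GoodP ε x y → 64 * ε * B ^ 2 ≤ μ → 1 ≤ m → 1 ≤ r →
    5 * (((Fintype.card ι : ℝ) ^ 2 * r * m + 1) * B ^ 2) ^ 3 * (1 / (2 * m * ε)) ^ (2 * r) < 1 →
    KerP 0 B μ (cg (Fintype.card ι)) (1 + r * m) x y g

/-- Short independent vectors orthogonal to a balanced vector (job D2a). -/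
def ShortBasis (ι : Type*) [Fintype ι] : Prop :=
  ∀ (B a : ℝ) (x : ι → ℤ), 1 ≤ a → 1 ≤ B → Sz B x → Bal B a x →
    ∃ L : Fin (Fintype.card ι - 1) → ι → ℤ, LinearIndependent ℤ L ∧
      (∀ j i, |(L j i : ℝ)| ≤ 15 * Fintype.card ι * a) ∧ ∀ j, ∑ i, L j i * x i = 0

/-- Few integral vectors close to the line through `x`, up to multiples of `x` (job D2b). -/
def ShortClasses (ι : Type*) [Fintype ι] : Prop :=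
  ∀ (x : ι → ℤ) (L : Fin (Fintype.card ι - 1) → ι → ℤ) (R δ : ℝ), Prim x →
    LinearIndependent ℤ L → (∀ j i, |(L j i : ℝ)| ≤ R) → (∀ j, ∑ i, L j i * x i = 0) → 0 ≤ R →
    0 ≤ δ → ∃ Z : Finset (ι → ℤ),
      (Z.card : ℝ) ≤ (2 * (Fintype.card ι * R * δ) + 1) ^ (Fintype.card ι - 1) ∧
      ∀ z : ι → ℤ, (∃ γ : ℝ, ∀ i, |(z i : ℝ) - γ * (x i : ℝ)| ≤ δ) →
        ∃ z' ∈ Z, ∃ c : ℤ, ∀ i, z i = z' i + c * x i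

section
variable [Fintype ι]

/-- value of a linear form -/
def dot (l z : ι → ℤ) : ℤ := ∑ i, l i * z i

/-- alternating expression -/
def om (x z l l' : ι → ℤ) : ℤ := dot l z * dot l' x - dot l x * dot l' z

/-- the relation between three values -/
def rel3 (x z₁ z₂ z₃ l₁ l₂ l₃ : ι → ℤ) : ℤ := om x z₁ l₂ l₃ + om x z₂ l₃ l₁ + om x z₃ l₁ l₂

end

/-- Linear algebra of exceptional pairs (job D2c). -/
def Relation (ι : Type*) [Fintype ι] : Prop :=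
  ∀ (x y : ι → ℤ) (L : Fin (Fintype.card ι - 1) → ι → ℤ) (M : ι → ι → ℤ)
    (z : Fin (Fintype.card ι - 1) → ι → ℤ) (c : Fin (Fintype.card ι - 1) → ℤ),
    (∃ i j, mn x y i j ≠ 0) → LinearIndependent ℤ L → (∀ j, dot (L j) y = 0) →
    (∀ i j, M i j = M j i) → (∀ j i, dot (L j) (fun i' => M i i') = z j i + c j * x i) →
    (∀ j₁ j₂ j₃, rel3 x (z j₁) (z j₂) (z j₃) (L j₁) (L j₂) (L j₃) = 0) ∧
    ((∀ j i i', mn x (z j) i i' = 0) → ∃ α' β' : ℝ, ∀ i j,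
      (M i j : ℝ) = α' * ((x i : ℝ) * (x j : ℝ)) + β' * ((y i : ℝ) * (y j : ℝ)))

/-- Few triples of vectors satisfy a nontrivial relation (job D2d). -/
def TripleCount (ι : Type*) [Fintype ι] : Prop :=
  ∀ (x z₁ z₂ z₃ : ι → ℤ) (R : ℝ), 0 ≤ R →
    ((∃ i j, mn x z₁ i j ≠ 0) ∨ (∃ i j, mn x z₂ i j ≠ 0) ∨ (∃ i j, mn x z₃ i j ≠ 0)) →
    ∀ U : Finset ((ι → ℤ) × (ι → ℤ) × (ι → ℤ)),
    (∀ p ∈ U, (∀ i, |(p.1 i : ℝ)| ≤ R) ∧ (∀ i, |(p.2.1 i : ℝ)| ≤ R) ∧ (∀ i, |(p.2.2 i : ℝ)| ≤ R) ∧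
      rel3 x z₁ z₂ z₃ p.1 p.2.1 p.2.2 = 0) →
    (U.card : ℝ) ≤ 2 * (2 * R + 1) ^ (3 * Fintype.card ι - 1)

/-- Few bad pairs (job D2e). -/
def BadPairs (ι : Type*) [Fintype ι] : Prop :=
  ∃ C : ℝ, 0 < C ∧ ∀ (B a ε E₁ : ℝ) (x : ι → ℤ), 1 ≤ a → a ≤ B → 0 < ε → ε ≤ 1 / 4 → 1 ≤ E₁ →
    a ^ 2 * ε ≤ E₁ → Sz B x → Prim x → Bal B a x → ∀ U : Finset (ι → ℤ),
    (∀ y ∈ U, Sz B y ∧ Prim y ∧ Bal B a y ∧ (∃ i j, mn x y i j ≠ 0) ∧ ¬ GoodP ε x y) →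
    (U.card : ℝ) ≤ C * (E₁ ^ (3 * (Fintype.card ι - 1)) *
      a ^ (Fintype.card ι * (Fintype.card ι - 1) - 1))

/-- the conclusion of the second moment computation (job D4) -/
def SMS2 (ι : Type*) [Fintype ι] {s : ℕ} (e : Fin s → ℕ) (Ct : ℝ) : Prop :=
  ∀ (w : ℕ) (_ : 1 ≤ w) (fc : Fin s → MvPolynomial ι ℤ) (S J : ℕ) (xc : ι → ℤ)
    (P : ℝ) (ξ : ι → ℝ) (a : Fin s → ι) (ρ ρ' B a₀ A A₂ T T' Λ ε₁ E₁ : ℝ) (m₁ r₁ : ℕ)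
    (Δ : Fin s → ℝ) (_ : 1 ≤ a₀) (_ : a₀ ≤ B) (_ : 1 ≤ T) (_ : T ≤ T') (_ : 1 ≤ Λ)
    (_ : 0 < ε₁) (_ : ε₁ ≤ 1 / 4) (_ : 64 * ε₁ * T' ≤ 1) (_ : 1 ≤ E₁) (_ : a₀ ^ 2 * ε₁ ≤ E₁)
    (_ : 1 ≤ m₁) (_ : 1 ≤ r₁)
    (_ : 5 * (((Fintype.card ι : ℝ) ^ 2 * r₁ * m₁ + 1) * B ^ 2) ^ 3 *
      (1 / (2 * m₁ * ε₁)) ^ (2 * r₁) < 1)
    (Lg : ℝ)
    (_ : ∀ s : ℕ, (s : ℝ) ≤ 15 * (Fintype.card ι) ^ 2 * a₀ * B → (Nat.log 2 s : ℝ) ≤ Lg)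
    (u : Fin s → (ι → ℤ) → ℤ)
    (_ : ∀ x ∈ boxS P ξ a ρ ρ' S J xc fc, ∀ j,
      MvPolynomial.eval x (fc j) = -(((S * J : ℕ) : ℤ) * u j x))
    (N : ℕ) (_ : 2 * T ≤ N) (K : ℕ)
    (_ : K = (∏ p ∈ (Finset.range (w + 1)).filter Nat.Prime, p) ^ N)
    (_ : ∀ j, 0 ≤ Δ j) (_ : ∀ j, K * N ≤ Δ j)
    (_ : ∀ j, A + (c1pt (Fintype.card ι) (e j + 1) + cg (Fintype.card ι) *
      (1 + (mons ι (e j + 2)).card * c1pt (Fintype.card ι) (e j + 1)) / (1 / T)) *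
      (Δ j / B ^ (e j + 2) + K * a₀) + cg (Fintype.card ι) * (1 + r₁ * m₁) ≤ A₂)
    (_ : ∀ j, 2 * c1pt (Fintype.card ι) (e j + 1) * a₀ ≤ A)
    (_ : 2 * cg (Fintype.card ι) * (1 + r₁ * m₁) ≤ A)
    (_ : ∀ j, 2 * cker (Fintype.card ι) (e j) * ((1 + Lg) * a₀ ^ 2) ≤ Λ * A)
    (R₁ E : ℝ) (R₂ : ℕ → ℝ) (_ : ∀ D, 0 ≤ R₂ D) (_ : 0 ≤ E)
    (_ : ∀ g ∈ sysZ ι e A₂,
      ((locSetS P ξ a ρ ρ' S J xc fc (memS fc S J g) K 1 0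
        (fun j => (S * J : ℕ) * Δ j)).card : ℝ) ≤ R₁)
    (_ : ∀ D : ℕ, 0 < D → D ≤ N → (∀ q : ℕ, q.Prime → q ≤ w → ¬ q ∣ D) →
      ∀ g ∈ sysZ ι e A₂, ∀ ζ,
      ((locSetS P ξ a ρ ρ' S J xc fc (memS fc S J g) K D ζ
        (fun j => (S * J : ℕ) * Δ j)).card : ℝ) ≤ R₂ D)
    (_ : ∀ D : ℕ, 0 < D → D ≤ N → (sysZ ι e A₂).card * (R₁ * (D * R₂ D)) ≤
      (sysZ ι e A).card * (E * (1 / (D : ℝ) ^ 2)) *
        (∏ j, ((2 * Δ j / K - 1) * (2 * Δ j / (K * D) - 1)))),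
    ∑ p ∈ (testSetS B a₀ P ξ a ρ ρ' S J xc fc) ×ˢ (testSetS B a₀ P ξ a ρ ρ' S J xc fc),
        ∏ j, (c2 (e j) A (u j) p : ℝ) ≤
      (sysZ ι e A).card * E * (1 + 1 / w) +
      Ct * (sysZ ι e (3 * A)).card * B ^ (2 * Fintype.card ι) /
        ((∏ j, (A ^ 2 * B ^ (2 * e j + 4))) * Real.sqrt T) +
      Ct * (sysZ ι e (3 * (Λ * A))).card * (B ^ (2 * Fintype.card ι) / Real.sqrt T' +
        T' ^ s * ((testSetS B a₀ P ξ a ρ ρ' S J xc fc).card *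
          (E₁ ^ (3 * (Fintype.card ι - 1)) *
            a₀ ^ (Fintype.card ι * (Fintype.card ι - 1) - 1)))) /
        (∏ j, (A ^ 2 * B ^ (2 * e j + 4))) +
      Ct * (sysZ ι e (2 * A)).card * (testSetS B a₀ P ξ a ρ ρ' S J xc fc).card /
        (∏ j, (A * B ^ (e j + 2)))

end Pool.Agent.Y716.D
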