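import Pool.Agent.Y716.C.Core
import Pool.Agent.Y716.D.Defs

/-!
# The core of the class theorem, borderline systems
-/

namespace Pool.Agent.Y716.D

open Pool.Agent.Y716.Q Pool.Agent.Y716.C

/-- the contribution of the bad pairs -/
theorem core_t3S {k : ℕ} {Ct G G₃ L P U U' X X₀ ε c₀ E₁ : ℝ} (hCt : 0 < Ct) (hG : 0 < G)
    (hG₃ : G₃ ≤ L * G) (hP : 0 < P) (hU : 0 < U) (hc₀ : 0 < c₀)
    (hUU : U ^ 2 ≤ U') (hX : 0 ≤ X) (hXX : X ≤ X₀) (hL : 0 ≤ L)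
    (h3 : 32 * Ct * L * X₀ ≤ ε * c₀ ^ 2 * P ^ (2 * k)) (hε : 0 < ε)
    (hE : c₀ / 2 * (P ^ k / U) ≤ E₁) :
    Ct * G₃ * X / U' ≤ ε / 8 * (E₁ ^ 2 * G) := by
  have h0 : c₀ ^ 2 / 4 * (P ^ (2 * k) / U ^ 2) ≤ E₁ ^ 2 := by
    have h2 := pow_le_pow_left₀ (by positivity) hE 2
    refine le_trans (le_of_eq ?_) h2
    rw [mul_pow, div_pow, div_pow, ← pow_mul, mul_comm k 2]
    norm_num
  have h1 := mul_le_mul_of_nonneg_right h0 (by positivity : 0 ≤ ε / 8 * G)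
  have h2 : ε / 8 * (E₁ ^ 2 * G) = E₁ ^ 2 * (ε / 8 * G) := by ring
  rw [h2]
  refine le_trans ?_ h1
  have hU'0 : 0 < U' := lt_of_lt_of_le (by positivity) hUU
  have hX₀ : 0 ≤ X₀ := hX.trans hXX
  have h4 : Ct * G₃ * X / U' ≤ Ct * (L * G) * X₀ / U ^ 2 := by
    apply div_le_div₀ (by positivity) _ (by positivity) hUU
    exact mul_le_mul (mul_le_mul_of_nonneg_left hG₃ hCt.le) hXX hX (by positivity)
  refine h4.trans ?_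
  rw [div_le_iff₀ (by positivity)]
  have h5 : c₀ ^ 2 / 4 * (P ^ (2 * k) / U ^ 2) * (ε / 8 * G) * U ^ 2 =
      (ε * c₀ ^ 2 * P ^ (2 * k)) * (G / 32) := by
    field_simp
    ring
  rw [h5]
  have h6 := mul_le_mul_of_nonneg_right h3 (by positivity : 0 ≤ G / 32)
  refine le_trans (le_of_eq ?_) h6
  ring

open scoped Classical in
/-- The core of the class theorem for systems. -/
theorem class_core2 {ι : Type*} [Fintype ι] {s : ℕ} {k : ℕ}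
    (hk : Fintype.card ι = k) (hsk : s + 3 ≤ k) {e : Fin s → ℕ}
    (hLU : LocUpper ι s) (hTL : TestLower ι s) {M : ℕ} {Ct : ℝ} (hCt0 : 0 < Ct)
    (hCt : SMS2 ι e Ct) {ε τ τ₂ T c₀ : ℝ} (hε : 0 < ε)
    (hτ0 : 0 < τ) (hτ1 : τ ≤ 1 / 2)
    (hb0 : 0 < (1 - τ) - (1 + τ) * τ - 2 * τ)
    (hb1 : 1 / 2 ≤ (1 - τ) / (1 + τ) ^ s * ((1 - τ) - (1 + τ) * τ - 2 * τ))
    (hτF : (1 + τ) ^ 3 / (1 - τ) ^ (2 * s) * (1 + τ) ≤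
      (1 + ε / 2) * ((1 - τ) / (1 + τ) ^ s * ((1 - τ) - (1 + τ) * τ - 2 * τ)) ^ 2)
    {w : ℕ} (hw1 : 1 ≤ w) (hwτ : 1 / (w : ℝ) ≤ τ)
    (hT1 : 1 ≤ T) (hc₀0 : 0 < c₀)
    (hTs : 16 * Ct * 4 ^ M * 4 ^ k / (ε / 2 * c₀ ^ 2) ≤ Real.sqrt T)
    {T' Λ ε₁ Ee : ℝ} {m₁ r₁ : ℕ} (hTT' : T ≤ T') (hΛ : 1 ≤ Λ) (hε₁ : 0 < ε₁) (hε₁4 : ε₁ ≤ 1 / 4)
    (hεT : 64 * ε₁ * T' ≤ 1) (hEe : 1 ≤ Ee) (hm₁ : 1 ≤ m₁) (hr₁ : 1 ≤ r₁)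
    {N : ℕ} (hNT : 2 * T ≤ N) {K : ℕ}
    (hK : K = (∏ p ∈ (Finset.range (w + 1)).filter Nat.Prime, p) ^ N) (hK0 : 0 < K)
    {N' : ℕ} (hN'1 : 1 ≤ N') {Y A P U : ℝ}
    (y9 : 16 * Ct * 3 ^ M * 6 ^ k / (ε * c₀ ^ 2) ≤ Y) (hU0 : 0 < U)
    (hUY : U * Y ≤ P ^ k) (hU1 : U ^ 2 ≤ ∏ j, (A ^ 2 * (2 * P) ^ (2 * e j + 4)))
    (hU2 : U ≤ ∏ j, (A * (2 * P) ^ (e j + 2)))
    {fc : Fin s → MvPolynomial ι ℤ} {S J : ℕ} {xc : ι → ℤ} {ξ : ι → ℝ} {a : Fin s → ι}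
    {ρ ρ' V M₀ R : ℝ}
    (hP : PDataS w fc S J xc) (hρ0 : 0 < ρ) (hρρ' : ρ ≤ ρ') (hρ'2 : ρ' ≤ 1 / 2)
    (hξ : ∀ i, |ξ i| ≤ 1) (hξr : ∃ r, ξ r = 1) (hV0 : 0 ≤ V)
    (hR : nuJ fc J xc * V / ((S * J : ℕ) : ℝ) ^ k = R) (hR0 : 0 < R) {Δ : Fin s → ℝ}
    (hslab : ∀ A₃ : ℝ, A₃ ≤ 2 * A → ∀ g ∈ sysZ ι e A₃,
      SlabCount V τ M₀ (fun j => ((S * J : ℕ) : ℝ) * Δ j) P ξ a ρ ρ' (memS fc S J g))
    (hM₀ : ((S * J * K * N : ℕ) : ℝ) ≤ M₀) (hM₀' : ((S * J * N' : ℕ) : ℝ) ≤ M₀)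
    (hN'r : (6 * P) ^ k / N' ≤ τ * R) (hA0 : 0 < A) (hP1 : 1 ≤ P) {a₀ : ℝ}
    (haE : a₀ ^ 2 * ε₁ ≤ Ee)
    (hsm : 5 * (((k : ℝ) ^ 2 * r₁ * m₁ + 1) * (2 * P) ^ 2) ^ 3 *
      (1 / (2 * m₁ * ε₁)) ^ (2 * r₁) < 1)
    (hub : ∀ U : Finset (ι → ℤ), (∀ x ∈ U, Sz (2 * P) x ∧ Prim x ∧ ¬ Bal (2 * P) a₀ x) →
      (U.card : ℝ) ≤ τ * R)
    (hr : c₀ * P ^ k / U ≤ R / ∏ j, (2 * Δ j))
    (ha1 : 1 ≤ a₀) (haB : a₀ ≤ 2 * P) (hΔ0 : ∀ j, 0 < Δ j)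
    (hKNΔ : ∀ j, (K * N : ℝ) ≤ τ * Δ j) (h1Δ : ∀ j, 1 ≤ τ * Δ j)
    (hA₂ : ∀ j, A + (c1pt k (e j + 1) + cg k *
      (1 + (mons ι (e j + 2)).card * c1pt k (e j + 1)) / (1 / T)) *
      (Δ j / (2 * P) ^ (e j + 2) + K * a₀) + cg k * (1 + r₁ * m₁) ≤
      (1 + τ₂) * A)
    (hA' : ∀ j, (1 - τ₂) * A + c1pt k (e j + 1) * (Δ j / (2 * P) ^ (e j + 2) + a₀) ≤ A)
    (haA : ∀ j, 2 * c1pt k (e j + 1) * a₀ ≤ A)
    (hmA : 2 * cg k * (1 + r₁ * m₁) ≤ A)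
    (haA2 : ∀ j, 2 * cker k (e j) * ((1 + 2 * Y) * a₀ ^ 2) ≤ Λ * A)
    (hLg : ∀ t : ℕ, (t : ℝ) ≤ 15 * (k:ℝ) ^ 2 * a₀ * (2 * P) → (Nat.log 2 t : ℝ) ≤ 2 * Y)
    (hτ₂0 : 0 < τ₂) (hτ₂1 : τ₂ ≤ 1 / 4)
    {G : ℝ} (hG : ((sysZ ι e A).card : ℝ) = G) (hG0 : 0 < G)
    (hG₂ : ((sysZ ι e ((1 + τ₂) * A)).card : ℝ) ≤ (1 + τ) * G)
    (hG' : (1 - τ) * G ≤ ((sysZ ι e ((1 - τ₂) * A)).card : ℝ))
    (hG3A : ((sysZ ι e (3 * A)).card : ℝ) ≤ 4 ^ M * G)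
    (hG2A : ((sysZ ι e (2 * A)).card : ℝ) ≤ 3 ^ M * G)
    (hGΛ : ((sysZ ι e (3 * (Λ * A))).card : ℝ) ≤ (4 * Λ) ^ M * G)
    (h3 : 32 * Ct * (4 * Λ) ^ M * ((2 * P) ^ (2 * k) / Real.sqrt T' + T' ^ s * ((6 * P) ^ k *
      (Ee ^ (3 * (k - 1)) * a₀ ^ (k * (k - 1) - 1)))) ≤ ε * c₀ ^ 2 * P ^ (2 * k)) :
    (((sysZ ι e A).filter (fun g =>
      ¬ ZeroInS (boxS P ξ a ρ ρ' S J xc fc) (memS fc S J g))).card : ℝ) ≤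
      ε * (sysZ ι e A).card := by
  have hP0 : 0 < P := by linarith
  have hKr : (1:ℝ) ≤ K := by exact_mod_cast hK0
  have hN1 : 1 ≤ N := by
    have : (1:ℝ) ≤ N := by linarith
    exact_mod_cast this
  have hSJ0 : (0:ℝ) < ((S * J : ℕ) : ℝ) := by exact_mod_cast Nat.mul_pos hP.hS hP.hJ
  -- the functions u
  have hdiv : ∀ x ∈ boxS P ξ a ρ ρ' S J xc fc, ∀ j, ∃ u : ℤ,
      MvPolynomial.eval x (fc j) = -(((S * J : ℕ) : ℤ) * u) := by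
    intro x hx j
    obtain ⟨u, hu⟩ := (mem_boxS.mp hx).2.2 j
    exact ⟨-u, by rw [hu]; ring⟩
  obtain ⟨u, hu⟩ : ∃ u : Fin s → (ι → ℤ) → ℤ, ∀ x ∈ boxS P ξ a ρ ρ' S J xc fc, ∀ j,
      MvPolynomial.eval x (fc j) = -(((S * J : ℕ) : ℤ) * u j x) := by
    choose! u hu using hdiv
    exact ⟨fun j x => u x j, fun x hx j => hu x hx j⟩
  -- local bounds
  have hloc : ∀ D : ℕ, 0 < D → D ≤ N → (∀ q : ℕ, q.Prime → q ≤ w → ¬ q ∣ D) →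
      ∀ g ∈ sysZ ι e ((1 + τ₂) * A), ∀ ζ,
      ((locSetS P ξ a ρ ρ' S J xc fc (memS fc S J g) K D ζ
        (fun j => ((S * J : ℕ) : ℝ) * Δ j)).card : ℝ) ≤
        (1 + τ) * R / ((K : ℝ) ^ s * (D : ℝ) ^ k) := by
    intro D hD hDN hDw g hg ζ
    have h1 := hLU w fc g S J xc hP V τ M₀ _ P ξ a ρ ρ' hV0 hτ0.le
      (hslab _ (mul_le_mul_of_nonneg_right (by linarith) hA0.le) g hg) N K hK D hD hDw
      (by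
        refine le_trans ?_ hM₀
        have : S * J * K * D ≤ S * J * K * N := Nat.mul_le_mul_left _ hDN
        exact_mod_cast this) ζ
    rw [hk, hR] at h1
    exact h1
  have hSM := hCt w hw1 fc S J xc P ξ a ρ ρ' (2 * P) a₀ A ((1 + τ₂) * A) T T' Λ ε₁ Ee m₁ r₁ Δ
    ha1 haB hT1 hTT' hΛ hε₁ hε₁4 hεT hEe haE hm₁ hr₁ (by rw [hk]; exact hsm) (2 * Y)
    (by rw [hk]; exact hLg) u hu N hNT K hK (fun j => (hΔ0 j).le)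
    (fun j => (hKNΔ j).trans (mul_le_of_le_one_left (hΔ0 j).le (by linarith)))
    (by simp only [hk]; exact hA₂)
    (by simp only [hk]; exact haA) (by simp only [hk]; exact hmA)
    (by simp only [hk]; exact haA2)
    ((1 + τ) * R / ((K : ℝ) ^ s * ((1 : ℕ) : ℝ) ^ k))
    ((1 + τ) ^ 3 / (1 - τ) ^ (2 * s) * (R / ∏ j, (2 * Δ j)) ^ 2)
    (fun D => (1 + τ) * R / ((K : ℝ) ^ s * (D : ℝ) ^ k))
    (fun D => by positivity)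
    (mul_nonneg (div_nonneg (by positivity) (pow_nonneg (by linarith) _)) (by positivity))
    (fun g hg => hloc 1 one_pos hN1 (fun q hq _ hq1 => hq.one_lt.ne' (Nat.dvd_one.mp hq1)) g hg 0)
    (fun D hD hDN hDw g hg ζ => hloc D hD hDN hDw g hg ζ)
    (fun D hD hDN => by
      rw [hG]
      refine core_EDS hsk hK0 hD hτ0 hτ1 hR0 hΔ0 hG0 hG₂ (fun j => ?_)
      refine le_trans ?_ (hKNΔ j)
      apply mul_le_mul_of_nonneg_left _ (by linarith)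
      exact_mod_cast hDN)
  -- first moment and Chebyshev
  have htest : ∀ g ∈ sysZ ι e ((1 - τ₂) * A), ((1 - τ) - (1 + τ) * τ - 2 * τ) * R ≤
      (((testSetS (2 * P) a₀ P ξ a ρ ρ' S J xc fc).filter (fun x =>
        ∀ j, |((MvPolynomial.eval x (memS fc S J g j) : ℤ) : ℝ)| ≤
          ((S * J : ℕ) : ℝ) * Δ j)).card : ℝ) := by
    intro g hg
    have h1 := hTL w fc g S J xc hw1 hP V τ M₀ _ P ξ a ρ ρ' a₀ hV0 hP0 hρ0 hρρ' hρ'2 hξ hξr hτ0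
      hτ1 hwτ (hslab _ (mul_le_mul_of_nonneg_right (by linarith) hA0.le) g hg) N' hN'1 hM₀'
      (by rw [hk, hR]; exact hN'r) (by rw [hk, hR]; exact hub)
    rw [hk, hR] at h1
    exact h1
  have hprod0 : 0 < ∏ j, (2 * Δ j) :=
    Finset.prod_pos (fun j _ => by have := hΔ0 j; positivity)
  have hr0 : 0 < R / ∏ j, (2 * Δ j) := by positivity
  obtain ⟨b, hb⟩ : ∃ b : ℝ, (1 - τ) - (1 + τ) * τ - 2 * τ = b := ⟨_, rfl⟩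
  rw [hb] at hb0 hb1 hτF htest
  have hβ0 : 0 < (1 - τ) / (1 + τ) ^ s * b := by linarith
  have hE₁0 : 0 < (1 - τ) / (1 + τ) ^ s * b * (R / ∏ j, (2 * Δ j)) := mul_pos hβ0 hr0
  have hcheb := chebyshev_classS (A := A) (A' := (1 - τ₂) * A) e hP.hS hP.hJ ha1
    (by linarith : (1:ℝ) ≤ 2 * P) u hu (fun j => (hΔ0 j).le) (by simp only [hk]; exact hA')
    hE₁0.le htest (by rw [hG]; exact core_chebS hτ0 hb0 hR0 hΔ0 hG0 hG' hτ1 h1Δ)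
  rw [hG] at hcheb hSM ⊢
  have hsub : (((sysZ ι e A).filter (fun g =>
      ¬ ZeroInS (boxS P ξ a ρ ρ' S J xc fc) (memS fc S J g))).card : ℝ) ≤
      (((sysZ ι e A).filter (fun g =>
      ¬ ZeroInS (testSetS (2 * P) a₀ P ξ a ρ ρ' S J xc fc) (memS fc S J g))).card : ℝ) := by
    refine card_filter_le' _ _ _ (fun g _ hg hz => hg ?_)
    obtain ⟨x, hx, hx0⟩ := hz
    exact ⟨x, (mem_testSetS.mp hx).1, hx0⟩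
  refine hsub.trans ?_
  have hE2 : c₀ / 2 * (P ^ k / U) ≤ (1 - τ) / (1 + τ) ^ s * b * (R / ∏ j, (2 * Δ j)) := by
    have h1 : 1 / 2 * (c₀ * P ^ k / U) ≤ (1 - τ) / (1 + τ) ^ s * b * (R / ∏ j, (2 * Δ j)) :=
      mul_le_mul hb1 hr (by positivity) hβ0.le
    refine le_trans (le_of_eq ?_) h1
    ring
  have hX' : ((testSetS (2 * P) a₀ P ξ a ρ ρ' S J xc fc).card : ℝ) ≤ (6 * P) ^ k := by
    rw [← hk]
    have h1 := div_count (by linarith : (0:ℝ) ≤ 2 * P) 1 one_pos (by push_cast; linarith)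
      (testSetS (2 * P) a₀ P ξ a ρ ρ' S J xc fc)
      (fun x hx => ⟨(mem_testSetS.mp hx).2.1.1, fun i => by simp⟩)
    refine h1.trans (le_of_eq ?_)
    congr 1
    push_cast; ring
  rw [hk] at hSM
  have hT0 : 0 < T := by linarith
  have ht1 := core_t1S (k := k) (M := M) (ε := ε / 2) hCt0 hG0 hG3A hP0 hU0 (by positivity) hc₀0
    (Real.sqrt_pos.mpr hT0) hU1 hTs hE2
  have ht3 := core_t3S (k := k) (L := (4 * Λ) ^ M) hCt0 hG0 hGΛ hP0 hU0 hc₀0 hU1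
    (X := (2 * P) ^ (2 * k) / Real.sqrt T' + T' ^ s *
      ((testSetS (2 * P) a₀ P ξ a ρ ρ' S J xc fc).card *
      (Ee ^ (3 * (k - 1)) * a₀ ^ (k * (k - 1) - 1))))
    (add_nonneg (by positivity) (mul_nonneg (pow_nonneg (by linarith) _) (by positivity))) (by
      refine add_le_add le_rfl ?_
      have hTp : 0 ≤ T' ^ s := pow_nonneg (by linarith) _
      apply mul_le_mul_of_nonneg_left _ hTp
      apply mul_le_mul_of_nonneg_right hX' (by positivity)) (by positivity) h3 hε hE2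
  have hassoc : ∀ m t₁ t₃ t₂ : ℝ, m + t₁ + t₃ + t₂ = m + (t₁ + t₃) + t₂ := by intros; ring
  rw [hassoc] at hSM
  refine final_ineq hE₁0 hcheb hSM ?_ ?_ ?_
  · refine core_main (div_nonneg (by positivity) (pow_nonneg (by linarith) _)) hG0.le ?_ hτF
    linarith
  · have e1 : ε / 4 * (((1 - τ) / (1 + τ) ^ s * b * (R / ∏ j, (2 * Δ j))) ^ 2 * G) =
        ε / 2 / 4 * (((1 - τ) / (1 + τ) ^ s * b * (R / ∏ j, (2 * Δ j))) ^ 2 * G) +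
        ε / 8 * (((1 - τ) / (1 + τ) ^ s * b * (R / ∏ j, (2 * Δ j))) ^ 2 * G) := by ring
    rw [e1]
    exact add_le_add ht1 ht3
  · exact core_t2S hCt0 hG0 hG2A hP0 hU0 hε hc₀0 hU2 hUY y9 hX' (Nat.cast_nonneg _) hE2

end Pool.Agent.Y716.D
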