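import Pool.Agent.Y716.D.Main
import Pool.Agent.Y716.C.ZeroCycle
import Pool.Agent.Y214.CY.Main

/-!
# Zero-cycles of degree one on intersections of two quadrics and on cubic hypersurfaces
-/

namespace Pool.Agent.Y716.D

open Filter Topology Pool.Agent.Y716.C Pool.Agent.Y697.C13

/-- Almost all smooth intersections of two quadrics in `ℙⁿ`, `n ≥ 4`, with zero-cycles of degree one
at all places have a rational point. -/
theorem zc_smooth_all (n : ℕ) (hn : 4 ≤ n) : Tendsto (fun H : ℕ =>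
      (({q : Fin 2 → MvPolynomial (Fin (n + 1)) ℤ | (∀ j, (q j).IsHomogeneous 2 ∧
          ∀ m, |(q j).coeff m| ≤ (H : ℤ)) ∧ SmoothS q ∧
          ∃ x : Fin (n + 1) → ℚ, x ≠ 0 ∧ ∀ j, MvPolynomial.aeval x (q j) = 0} : Set _).ncard : ℝ) /
      (({q : Fin 2 → MvPolynomial (Fin (n + 1)) ℤ | (∀ j, (q j).IsHomogeneous 2 ∧
          ∀ m, |(q j).coeff m| ≤ (H : ℤ)) ∧ SmoothS q ∧
          ZC q ℝ ∧ ∀ (p : ℕ) [Fact p.Prime], ZC q ℚ_[p]} : Set _).ncard : ℝ))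
      atTop (𝓝 1) := by
  have h1 := hp_smooth_all (Fin (n + 1)) (s := 2) (by norm_num)
    (by rw [Fintype.card_fin]; omega) (fun _ => 0) (by rw [Fintype.card_fin]; simp; omega)
  have h2 : ∀ H : ℕ, {q : Fin 2 → MvPolynomial (Fin (n + 1)) ℤ | (∀ j, (q j).IsHomogeneous 2 ∧
          ∀ m, |(q j).coeff m| ≤ (H : ℤ)) ∧ SmoothS q ∧
          ZC q ℝ ∧ ∀ (p : ℕ) [Fact p.Prime], ZC q ℚ_[p]} =
      {q : Fin 2 → MvPolynomial (Fin (n + 1)) ℤ | (∀ j, (q j).IsHomogeneous 2 ∧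
          ∀ m, |(q j).coeff m| ≤ (H : ℤ)) ∧ SmoothS q ∧ ElsS q} := by
    intro H
    ext q
    refine and_congr_right (fun hq => and_congr_right (fun _ => ?_))
    have hq2 : ∀ j, (q j).IsHomogeneous 2 := fun j => (hq j).1
    unfold ElsS
    refine and_congr (zc_iff hq2 ℝ) (forall_congr' fun p => forall_congr' fun hp => ?_)
    exact zc_iff hq2 ℚ_[p]
  simp only [h2]
  exact h1

/-- a local zero-cycle of degree one on a cubic hypersurface gives a local point -/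
theorem zc_cubic {ι : Type} [Fintype ι] (hι : 2 ≤ Fintype.card ι)
    {q : Fin 1 → MvPolynomial ι ℤ} (hq : ∀ j, (q j).IsHomogeneous 3) :
    (ZC q ℝ ∧ ∀ (p : ℕ) [Fact p.Prime], ZC q ℚ_[p]) ↔ ElsS q := by
  have hpt : ∀ (K : Type) [Field K], (∃ x : ι → K, x ≠ 0 ∧ ∀ j, MvPolynomial.aeval x (q j) = 0) →
      ZC q K := by
    rintro K _ ⟨x, hx0, hx⟩
    refine ⟨1, fun _ => K, fun _ => inferInstance, fun _ => inferInstance, fun _ => 1,
      fun _ => inferInstance, fun _ => ⟨x, hx0, hx⟩, ?_⟩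
    simp
  constructor
  · rintro ⟨-, h2⟩
    refine ⟨?_, fun p hp => ?_⟩
    · obtain ⟨y, hy0, hy⟩ := Pool.Agent.Y214.CY.real_cubic ι hι (q 0) (hq 0)
      exact ⟨y, hy0, fun j => by rw [Subsingleton.elim j 0]; exact hy⟩
    · obtain ⟨t, L, hF, hA, m, hfd, hx, hsum⟩ := h2 p
      have h1 : ∃ i, ¬ 3 ∣ Module.finrank ℚ_[p] (L i) := by
        by_contra hcon
        push Not at hcon
        have h2 : (3 : ℤ) ∣ ∑ i, m i * (Module.finrank ℚ_[p] (L i) : ℤ) := by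
          apply Finset.dvd_sum
          intro i _
          exact Dvd.dvd.mul_left (by exact_mod_cast hcon i) _
        rw [hsum] at h2
        omega
      obtain ⟨i, hi⟩ := h1
      obtain ⟨x, hx0, hx⟩ := hx i
      haveI := hfd i
      obtain ⟨y, hy0, hy⟩ := Pool.Agent.Y214.CY.coray ι p (L i) hi (q 0) (hq 0) x hx0 (hx 0)
      exact ⟨y, hy0, fun j => by rw [Subsingleton.elim j 0]; exact hy⟩
  · rintro ⟨h1, h2⟩
    exact ⟨hpt ℝ h1, fun p _ => hpt ℚ_[p] (h2 p)⟩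

/-- Almost all smooth cubic hypersurfaces in `ℙⁿ`, `n ≥ 3`, with zero-cycles of degree one at all
places have a rational point. -/
theorem zc_cubic_smooth (n : ℕ) (hn : 3 ≤ n) : Tendsto (fun H : ℕ =>
      (({q : Fin 1 → MvPolynomial (Fin (n + 1)) ℤ | (∀ j, (q j).IsHomogeneous 3 ∧
          ∀ m, |(q j).coeff m| ≤ (H : ℤ)) ∧ SmoothS q ∧
          ∃ x : Fin (n + 1) → ℚ, x ≠ 0 ∧ ∀ j, MvPolynomial.aeval x (q j) = 0} : Set _).ncard : ℝ) /
      (({q : Fin 1 → MvPolynomial (Fin (n + 1)) ℤ | (∀ j, (q j).IsHomogeneous 3 ∧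
          ∀ m, |(q j).coeff m| ≤ (H : ℤ)) ∧ SmoothS q ∧
          ZC q ℝ ∧ ∀ (p : ℕ) [Fact p.Prime], ZC q ℚ_[p]} : Set _).ncard : ℝ))
      atTop (𝓝 1) := by
  have h1 := hp_smooth_all (Fin (n + 1)) (s := 1) le_rfl
    (by rw [Fintype.card_fin]; omega) (fun _ => 1) (by rw [Fintype.card_fin]; simp; omega)
  have h2 : ∀ H : ℕ, {q : Fin 1 → MvPolynomial (Fin (n + 1)) ℤ | (∀ j, (q j).IsHomogeneous 3 ∧
          ∀ m, |(q j).coeff m| ≤ (H : ℤ)) ∧ SmoothS q ∧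
          ZC q ℝ ∧ ∀ (p : ℕ) [Fact p.Prime], ZC q ℚ_[p]} =
      {q : Fin 1 → MvPolynomial (Fin (n + 1)) ℤ | (∀ j, (q j).IsHomogeneous 3 ∧
          ∀ m, |(q j).coeff m| ≤ (H : ℤ)) ∧ SmoothS q ∧ ElsS q} := by
    intro H
    ext q
    refine and_congr_right (fun hq => and_congr_right (fun _ => ?_))
    exact zc_cubic (by rw [Fintype.card_fin]; omega) (fun j => (hq j).1)
  simp only [h2]
  exact h1

end Pool.Agent.Y716.D
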